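import Pool.Agent.X232.CF.Abs
import Pool.Agent.TH826.SX.Milnor
set_option autoImplicit false

/-!
Alternating functions of symbols: the values are combinations of the values at increasing families
of generators.
-/

namespace Pool.Agent.X232.CG

open Pool.Agent.TH826.MK

section span

/-- The values of an alternating map at families in the span of `v` are combinations of the values
at increasing families of the `v i`. -/
theorem alt_span {M W : Type*} [AddCommGroup M] [AddCommGroup W] {n : ℕ}
    (f : M [⋀^Fin n]→ₗ[ℤ] W) {I : Type*} [LinearOrder I] (v : I → M) (u : Fin n → M)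
    (hu : ∀ i, u i ∈ Submodule.span ℤ (Set.range v)) :
    f u ∈ Submodule.span ℤ (Set.range fun τ : Fin n ↪o I => f (v ∘ τ)) := by
  set g := exteriorPower.alternatingMapLinearEquiv f with hg
  have hgf : ∀ a, g (exteriorPower.ιMulti ℤ n a) = f a :=
    exteriorPower.alternatingMapLinearEquiv_apply_ιMulti f
  have h1 : exteriorPower.ιMulti ℤ n u ∈
      Submodule.span ℤ (Set.range (exteriorPower.ιMulti_family ℤ n v)) := by
    rw [← exteriorPower.ιMulti_family_span]
    refine ⟨exteriorPower.ιMulti ℤ n fun i => ⟨u i, hu i⟩, ?_⟩
    rw [exteriorPower.map_apply_ιMulti]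
    rfl
  have h2 : g (exteriorPower.ιMulti ℤ n u) ∈
      (Submodule.span ℤ (Set.range (exteriorPower.ιMulti_family ℤ n v))).map g :=
    Submodule.mem_map_of_mem h1
  rw [hgf, Submodule.map_span] at h2
  refine Submodule.span_mono ?_ h2
  rintro _ ⟨_, ⟨s, rfl⟩, rfl⟩
  refine ⟨Set.powersetCard.ofFinEmbEquiv.symm s, ?_⟩
  show f (v ∘ _) = g (exteriorPower.ιMulti ℤ n (v ∘ _))
  rw [hgf]

end span

variable {A : Type*} [CommRing A] {n : ℕ} {W : Type*} [AddCommGroup W] [Module ℚ W]

/-- The linear map vanishes at the symbols with two equal entries. -/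
def AltP (Ψ : KQ A n →ₗ[ℚ] W) : Prop :=
  ∀ (u : Fin n → Aˣ) (i j : Fin n), i ≠ j → u i = u j → Ψ (symb u) = 0

theorem symb_upd_mul (u : Fin n → Aˣ) (i : Fin n) (x y : Aˣ) :
    symb (Function.update u i (x * y)) = symb (Function.update u i x) +
      symb (Function.update u i y) := symb_update_mul u i x y

/-- an alternating function of units as an alternating map -/
noncomputable def mkAlt (φ : (Fin n → Aˣ) → W)
    (h1 : ∀ (a : Fin n → Aˣ) (i : Fin n) (x y : Aˣ), φ (Function.update a i (x * y)) =
      φ (Function.update a i x) + φ (Function.update a i y))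
    (h2 : ∀ (u : Fin n → Aˣ) (i j : Fin n), i ≠ j → u i = u j → φ u = 0) :
    (Additive Aˣ) [⋀^Fin n]→ₗ[ℤ] W :=
  { MultilinearMap.mk' (R := ℤ) (fun u : Fin n → Additive Aˣ => φ fun i => (u i).toMul)
      (by
        intro u i x y
        have e : ∀ z : Additive Aˣ, (fun j => (Function.update u i z j).toMul) =
            Function.update (fun j => (u j).toMul) i z.toMul := by
          intro z
          funext j
          by_cases hj : j = i
          · subst hj; simp
          · simp [Function.update_of_ne hj]
        simp only [e, toMul_add, h1])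
      (by
        intro u i c x
        have e : ∀ z : Additive Aˣ, (fun j => (Function.update u i z j).toMul) =
            Function.update (fun j => (u j).toMul) i z.toMul := by
          intro z
          funext j
          by_cases hj : j = i
          · subst hj; simp
          · simp [Function.update_of_ne hj]
        simp only [e]
        let ψ : Additive Aˣ →+ W := AddMonoidHom.mk'
          (fun z => φ (Function.update (fun j => (u j).toMul) i z.toMul))
          (fun z w => by rw [toMul_add, h1])
        exact map_zsmul ψ c x) with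
    map_eq_zero_of_eq' := by
      intro u i j hij hne
      exact h2 _ i j hne (by rw [hij]) }

omit [Module ℚ W] in
theorem mkAlt_apply (φ : (Fin n → Aˣ) → W) (h1) (h2) (u : Fin n → Additive Aˣ) :
    mkAlt φ h1 h2 u = φ fun i => (u i).toMul := rfl

/-- The span lemma for functions of units. -/
theorem mk_span {φ : (Fin n → Aˣ) → W}
    (h1 : ∀ (a : Fin n → Aˣ) (i : Fin n) (x y : Aˣ), φ (Function.update a i (x * y)) =
      φ (Function.update a i x) + φ (Function.update a i y))
    (h2 : ∀ (u : Fin n → Aˣ) (i j : Fin n), i ≠ j → u i = u j → φ u = 0)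
    {I : Type*} [LinearOrder I] (v : I → Aˣ) (u : Fin n → Aˣ)
    (hu : ∀ i, u i ∈ Subgroup.closure (Set.range v)) :
    φ u ∈ Submodule.span ℚ (Set.range fun τ : Fin n ↪o I => φ (v ∘ τ)) := by
  have h := alt_span (mkAlt φ h1 h2) (fun i => Additive.ofMul (v i))
    (fun i => Additive.ofMul (u i)) (fun i => by
      have h3 : Submodule.span ℤ (Set.range fun i => Additive.ofMul (v i)) =
          AddSubgroup.toIntSubmodule (Subgroup.toAddSubgroup (Subgroup.closure (Set.range v))) := by
        apply le_antisymm
        · rw [Submodule.span_le]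
          rintro _ ⟨j, rfl⟩
          show v j ∈ Subgroup.closure (Set.range v)
          exact Subgroup.subset_closure ⟨j, rfl⟩
        · intro x hx
          have hx' : x.toMul ∈ Subgroup.closure (Set.range v) := hx
          have key : ∀ y ∈ Subgroup.closure (Set.range v), Additive.ofMul y ∈
              Submodule.span ℤ (Set.range fun i => Additive.ofMul (v i)) := by
            intro y hy
            induction hy using Subgroup.closure_induction with
            | mem y hy =>
              obtain ⟨j, rfl⟩ := hy
              exact Submodule.subset_span ⟨j, rfl⟩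
            | one => exact Submodule.zero_mem _
            | mul a b _ _ ha hb => exact Submodule.add_mem _ ha hb
            | inv a _ ha => exact Submodule.neg_mem _ ha
          exact key _ hx'
      rw [h3]
      exact hu i)
  have h4 : Submodule.span ℤ (Set.range fun τ : Fin n ↪o I =>
      mkAlt φ h1 h2 ((fun i => Additive.ofMul (v i)) ∘ τ)) ≤
      (Submodule.span ℚ (Set.range fun τ : Fin n ↪o I => φ (v ∘ τ))).restrictScalars ℤ := by
    rw [Submodule.span_le]
    rintro _ ⟨τ, rfl⟩
    exact Submodule.subset_span ⟨τ, rfl⟩
  exact h4 h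

theorem symb_map_mul (Ψ : KQ A n →ₗ[ℚ] W) (a : Fin n → Aˣ) (i : Fin n) (x y : Aˣ) :
    Ψ (symb (Function.update a i (x * y))) =
      Ψ (symb (Function.update a i x)) + Ψ (symb (Function.update a i y)) := by
  rw [symb_upd_mul, map_add]

end Pool.Agent.X232.CG
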