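import Pool.Agent.X232.CG.Rho
import Pool.Agent.X232.CU.Ker
set_option autoImplicit false

/-!
The functionals given by the places at infinity separate the symbols `{c, b_{S 1}, ..., b_{S d}}`.
-/

namespace Pool.Agent.X232.CG

open Pool.Agent.TH826.MK

open Pool.Agent.X232.CF (cu coe_cu)

open Pool.Agent.X232.CU (s1 s1_mul s1_one s1_ext span_symb)

open Pool.Agent.TH826.GA (GRing gpol gcst gu coe_gu lf geqn gpol_geqn prod_gl cm al be fwd fwd_lf
  al_T be_T al_ne)

variable {K : Type*} [Field K] {k m : ℕ}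

/-- the quotients `L_{v + 1} / L_0` -/
noncomputable def bq (lam : K) (c : Fin (m + 1) → Fin (k + 1 + 1) → K) (a : Fin (m + 1) → K)
    (v : Fin m) : (GRing lam c a)ˣ := gu lam c a v.succ / gu lam c a 0

/-- the facets of the place -/
noncomputable def tS (S : {s : Finset (Fin m) // s.card = k + 1}) : Fin (k + 1 + 1) → Fin (m + 1) :=
  Fin.cons 0 (fun i => (oe S i).succ)

theorem oe_inj {n : ℕ} (S : {s : Finset (Fin m) // s.card = n}) : Function.Injective (oe S) :=
  (S.1.orderEmbOfFin S.2).injective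

theorem oe_mem {n : ℕ} (S : {s : Finset (Fin m) // s.card = n}) (i : Fin n) : oe S i ∈ S.1 :=
  Finset.orderEmbOfFin_mem _ _ _

theorem exists_oe {n : ℕ} (S : {s : Finset (Fin m) // s.card = n}) {v : Fin m} (hv : v ∈ S.1) :
    ∃ i, oe S i = v := by
  have h : v ∈ Set.range (S.1.orderEmbOfFin S.2) := by
    rw [Finset.range_orderEmbOfFin]
    exact hv
  exact h

theorem tS_inj (S : {s : Finset (Fin m) // s.card = k + 1}) : Function.Injective (tS S) := by
  unfold tS
  rw [Fin.cons_injective_iff]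
  refine ⟨?_, (Fin.succ_injective m).comp (oe_inj S)⟩
  rintro ⟨j, hj⟩
  exact Fin.succ_ne_zero _ hj

/-- the functional given by the place -/
noncomputable def DF {c : Fin (m + 1) → Fin (k + 1 + 1) → K} {a : Fin (m + 1) → K}
    {T : Fin (k + 1 + 1) → Fin (m + 1)} {lam : K} (D : PD lam c a T) (φ : KQ K 1 →ₗ[ℚ] ℚ) :
    KQ (GRing lam c a) (k + 1 + 1) →ₗ[ℚ] ℚ :=
  (DR (good_RR φ)).comp (KQ.map (k + 1 + 1) D.pl)

variable {c : Fin (m + 1) → Fin (k + 1 + 1) → K}
  {a : Fin (m + 1) → K} {lam : K} (φ : KQ K 1 →ₗ[ℚ] ℚ)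

theorem DF_symb {T : Fin (k + 1 + 1) → Fin (m + 1)} (D : PD lam c a T)
    (u : Fin (k + 1 + 1) → (GRing lam c a)ˣ) :
    DF D φ (symb u) = (Matrix.of fun i => D.rho φ (u i)).det := by
  unfold DF
  rw [LinearMap.comp_apply, KQ.map_symb, DR_symb]
  rfl

variable (hdet : ∀ T : Fin (k + 1 + 1) → Fin (m + 1), Function.Injective T → (cm c T).det ≠ 0)
  {S : {s : Finset (Fin m) // s.card = k + 1}} (D : PD lam c a (tS S))

include hdet

theorem rho_b0 (hlam : lam ≠ 0) : D.rho φ (bq lam c a (oe S 0)) (Fin.succ 0) = m + 1 := by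
  unfold bq
  rw [D.rho_div, Pi.sub_apply]
  have h1 := D.rho_T1 φ hdet (tS_inj S) hlam
  have h2 : D.rho φ (gu lam c a 0) (Fin.succ 0) = -1 := by
    have h3 := D.rho_T0 φ hdet (tS_inj S)
    have h4 := congrFun h3 (Fin.succ 0)
    exact h4
  have h5 : D.rho φ (gu lam c a (oe S 0).succ) (Fin.succ 0) = m := h1
  rw [h5, h2]
  ring

theorem rho_bs (j : Fin k) : D.rho φ (bq lam c a (oe S j.succ)) =
    Fin.cons 0 (Fin.cons 0 (Pi.single j 1) : Fin (k + 1) → ℚ) := by
  unfold bq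
  rw [D.rho_div]
  have h1 : D.rho φ (gu lam c a (oe S j.succ).succ) = _ := D.rho_Tss φ hdet (tS_inj S) j
  have h2 : D.rho φ (gu lam c a 0) = _ := D.rho_T0 φ hdet (tS_inj S)
  rw [h1, h2]
  funext i
  refine Fin.cases ?_ (fun i => ?_) i
  · simp
  · refine Fin.cases ?_ (fun i => ?_) i
    · simp
    · simp

theorem rho_bo {v : Fin m} (hv : v ∉ S.1) : ∃ x : ℚ, D.rho φ (bq lam c a v) =
    x • (Fin.cons 1 0 : Fin (k + 1 + 1) → ℚ) := by
  have he : ∀ i, tS S i ≠ v.succ := by
    intro i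
    refine Fin.cases ?_ (fun i => ?_) i
    · exact (Fin.succ_ne_zero v).symm
    · intro h
      have h1 : (oe S i).succ = v.succ := h
      apply hv
      rw [← Fin.succ_injective _ h1]
      exact oe_mem S i
  obtain ⟨x, hx⟩ := D.rho_other φ hdet (tS_inj S) he
  refine ⟨x, ?_⟩
  unfold bq
  have h2 : D.rho φ (gu lam c a 0) = _ := D.rho_T0 φ hdet (tS_inj S)
  rw [D.rho_div, hx, h2]
  funext i
  refine Fin.cases ?_ (fun i => ?_) i
  · simp
  · refine Fin.cases ?_ (fun i => ?_) i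
    · simp
    · simp

theorem DF_self (hlam : lam ≠ 0) (κ : KQ K 1) :
    DF D φ (th1 (gcst lam c a) (bq lam c a ∘ oe S) κ) = ((m : ℚ) + 1) * φ κ := by
  have h : (DF D φ).comp (th1 (gcst lam c a) (bq lam c a ∘ oe S)) = ((m : ℚ) + 1) • φ := by
    refine s1_ext fun x => ?_
    rw [LinearMap.comp_apply, th1_s1, DF_symb, LinearMap.smul_apply, smul_eq_mul]
    rw [det_tri]
    · have e1 : (Matrix.of fun i => D.rho φ ((Fin.cons (cu (gcst lam c a) x)
          (bq lam c a ∘ oe S) : Fin (k + 1 + 1) → (GRing lam c a)ˣ) i)) 0 0 = φ (s1 K x) := by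
        show D.rho φ (cu (gcst lam c a) x) 0 = _
        rw [D.rho_const]
        simp
      have e2 : (Matrix.of fun i => D.rho φ ((Fin.cons (cu (gcst lam c a) x)
          (bq lam c a ∘ oe S) : Fin (k + 1 + 1) → (GRing lam c a)ˣ) i)) (Fin.succ 0)
            (Fin.succ 0) = m + 1 := rho_b0 φ hdet D hlam
      rw [e1, e2, mul_comm]
    · intro j
      show D.rho φ (cu (gcst lam c a) x) j.succ = 0
      rw [D.rho_const]
      simp
    · intro i
      show D.rho φ (bq lam c a (oe S i.succ)) (Fin.succ 0) = 0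
      rw [rho_bs φ hdet D]
      simp
    · intro i j
      show D.rho φ (bq lam c a (oe S i.succ)) j.succ.succ = _
      rw [rho_bs φ hdet D]
      simp only [Fin.cons_succ]
      rw [Pi.single_apply]
      simp only [eq_comm]
  exact LinearMap.congr_fun h κ

theorem DF_other {S' : {s : Finset (Fin m) // s.card = k + 1}} (hS : S' ≠ S) (κ : KQ K 1) :
    DF D φ (th1 (gcst lam c a) (bq lam c a ∘ oe S') κ) = 0 := by
  obtain ⟨v, hv', hv⟩ : ∃ v ∈ S'.1, v ∉ S.1 := by
    by_contra hcon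
    push Not at hcon
    apply hS
    apply Subtype.ext
    exact Finset.eq_of_subset_of_card_le (fun x hx => hcon x hx) (by rw [S.2, S'.2])
  obtain ⟨i, rfl⟩ := exists_oe S' hv'
  have h : (DF D φ).comp (th1 (gcst lam c a) (bq lam c a ∘ oe S')) = 0 := by
    refine s1_ext fun x => ?_
    rw [LinearMap.comp_apply, th1_s1, DF_symb, LinearMap.zero_apply]
    obtain ⟨y, hy⟩ := rho_bo φ hdet D hv
    exact det_par (i := 0) (j := i.succ) (Fin.succ_ne_zero i).symm (x := φ (s1 K x)) (y := y)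
      (E := (Fin.cons 1 0 : Fin (k + 1 + 1) → ℚ)) (D.rho_const φ x) hy
  exact LinearMap.congr_fun h κ

end Pool.Agent.X232.CG
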