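import Pool.Agent.X232.CG.Const
import Pool.Agent.X232.CG.Func
import Pool.Agent.X232.CF.P.Unr
import Pool.Agent.X232.CU.Iso
set_option autoImplicit false

/-!
The unramified part of the K-group of the coordinate ring of the hypersurface.
-/

namespace Pool.Agent.X232.CG

open Pool.Agent.TH826.MK

open Pool.Agent.X232.CF (cu coe_cu UnramifiedOver)

open Pool.Agent.X232.CU (s1 s1_mul s1_one s1_ext span_symb ti order_ti)

open Pool.Agent.TH826.GA (GRing gpol gcst gu coe_gu lf geqn gpol_geqn prod_gl cm al be gam gz gent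
  ku coe_ku vert splx splx_injective)

open Pool.Agent.Y797.IV (Clears GenPos)

section units

variable {K : Type*} [Field K] {k m : ℕ} {c : Fin (m + 1) → Fin (k + 1 + 1) → K}
  {a : Fin (m + 1) → K} {lam : K}

theorem units_GG (hdet : ∀ T : Fin (k + 1 + 1) → Fin (m + 1), Function.Injective T →
    (cm c T).det ≠ 0) (hm : k + 1 ≤ m) (hlam : lam ≠ 0) {J : Type*}
    [LinearOrder J] {g : J → Kˣ} (hg : Function.Surjective g) (f : (GRing lam c a)ˣ) :
    ∃ N : ℕ, 0 < N ∧ f ^ N ∈ GG (gcst lam c a) (bq lam c a) g := by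
  classical
  set G := GG (gcst lam c a) (bq lam c a) g with hG
  have hcu : ∀ x : Kˣ, cu (gcst lam c a) x ∈ G := fun x => cu_mem _ _ _ hg x
  have hb : ∀ v, bq lam c a v ∈ G := fun v => b_mem _ _ _ v
  have hgs : ∀ v : Fin m, gu lam c a v.succ = bq lam c a v * gu lam c a 0 := fun v => by
    unfold bq
    rw [div_mul_cancel]
  have h0 : gu lam c a 0 ^ (m + 1) ∈ G := by
    have h1 : cu (gcst lam c a) (Units.mk0 lam hlam) * ∏ e, gu lam c a e = 1 := by
      ext
      rw [Units.val_mul, Units.coe_prod, coe_cu, Units.val_mk0, Units.val_one]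
      exact prod_gl lam c a
    rw [Fin.prod_univ_succ] at h1
    simp only [hgs] at h1
    rw [Finset.prod_mul_distrib, Finset.prod_const, Finset.card_univ, Fintype.card_fin] at h1
    have h2 : gu lam c a 0 ^ (m + 1) = (cu (gcst lam c a) (Units.mk0 lam hlam))⁻¹ *
        (∏ v, bq lam c a v)⁻¹ := by
      rw [← mul_inv, eq_inv_iff_mul_eq_one, ← h1, pow_succ]
      ac_rfl
    rw [h2]
    exact G.mul_mem (G.inv_mem (hcu _)) (G.inv_mem (G.prod_mem fun v _ => hb v))
  have h3 : ∀ e, gu lam c a e ^ (m + 1) ∈ G := by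
    intro e
    refine Fin.cases h0 (fun v => ?_) e
    rw [hgs, mul_pow]
    exact G.mul_mem (G.pow_mem (hb v) _) h0
  obtain ⟨n, x, hx⟩ := units_G hdet hm hlam f
  refine ⟨(m + 1) * (m + 1), Nat.mul_pos (Nat.succ_pos m) (Nat.succ_pos m), ?_⟩
  rw [pow_mul, hx, mul_pow, ← Finset.prod_pow]
  refine G.mul_mem (G.pow_mem (hcu x) _) (G.prod_mem fun e _ => ?_)
  rw [← zpow_natCast, ← zpow_mul, mul_comm, zpow_mul, zpow_natCast]
  exact G.zpow_mem (h3 e) _

end units

section psi

variable {K A : Type*} [Field K] [CommRing A] (cst : K →+* A) (L : Type*) [Field L] [Algebra A L]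
  (d : ℕ)

/-- The torus `Γ` consists of points of `A` over the embedding `σ` of the field of constants. -/
def Over (σ : K →+* ℂ) (Γ : Torus A d) : Prop := ∀ θ x, Γ.e θ (cst x) = σ x

/-- The regulators on `K_{d+1}(A) ⊗ ℚ`, for all tori over embeddings of the field of constants. -/
noncomputable def regs :
    KQ A (d + 1) →ₗ[ℚ] ({Γ : Torus A d // ∃ σ, Over cst d σ Γ} → ℝ) :=
  LinearMap.pi fun Γ => Γ.1.reg

theorem regs_apply (α : KQ A (d + 1)) (Γ : {Γ : Torus A d // ∃ σ, Over cst d σ Γ}) :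
    regs cst d α Γ = Γ.1.reg α := rfl

/-- The subspace of `K_n(L) ⊗ ℚ` generated by the symbols with two entries in the subfield `K`. -/
noncomputable def Two {L : Type*} [Field L] (ι : K →+* L) (n : ℕ) : Submodule ℚ (KQ L n) :=
  Submodule.span ℚ {z | ∃ (u : Fin n → Lˣ) (i j : Fin n) (x y : Kˣ), i ≠ j ∧
    (u i : L) = ι x ∧ (u j : L) = ι y ∧ z = symb u}

/-- the class in the K-group of the field of functions and all regulators -/
noncomputable def psi :
    KQ A (d + 1) →ₗ[ℚ] KQ L (d + 1) × ({Γ : Torus A d // ∃ σ, Over cst d σ Γ} → ℝ) :=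
  (KQ.map (d + 1) (algebraMap A L)).prod (regs cst d)

theorem pair_eq_zero (Γ : Torus A d) (u : Fin (d + 1) → Aˣ) {i j : Fin (d + 1)} (hij : i ≠ j)
    (h : u i = u j) : Γ.pair u = 0 := by
  unfold Torus.pair pairing
  refine MeasureTheory.integral_eq_zero_of_ae (Filter.Eventually.of_forall fun y => ?_)
  unfold integrand
  have h1 : (Matrix.of fun l => grow (Γ.fn (u l : A)) y).det = 0 := by
    refine Matrix.det_zero_of_row_eq hij ?_
    show grow (Γ.fn (u i : A)) y = grow (Γ.fn (u j : A)) y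
    rw [h]
  rw [h1, mul_zero]
  rfl

theorem pair_two (Γ : Torus A d) {σ : K →+* ℂ} (hΓ : Over cst d σ Γ) (u : Fin (d + 1) → Aˣ)
    {i j : Fin (d + 1)} (hij : i ≠ j) {x y : Kˣ} (hi : u i = cu cst x) (hj : u j = cu cst y) :
    Γ.pair u = 0 := by
  unfold Torus.pair pairing
  refine MeasureTheory.integral_eq_zero_of_ae (Filter.Eventually.of_forall fun z => ?_)
  unfold integrand
  have hc : ∀ x : Kˣ, Γ.fn ((cu cst x : Aˣ) : A) = fun _ => σ x := by
    intro x
    funext θ
    exact hΓ θ x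
  have hg : ∀ x : Kˣ, grow (fun _ : Fin d → ℝ => σ (x : K)) z =
      (Real.log ‖σ (x : K)‖ : ℂ) • (Pi.single 0 1 : Fin (d + 1) → ℂ) := by
    intro x
    funext l
    refine Fin.cases ?_ (fun l => ?_) l
    · rw [grow_zero, Pi.smul_apply, Pi.single_eq_same, smul_eq_mul, mul_one]
    · rw [grow_const, Pi.smul_apply, Pi.single_eq_of_ne (Fin.succ_ne_zero l), smul_zero]
  have h1 : (Matrix.of fun l => grow (Γ.fn (u l : A)) z).det = 0 := by
    have hri : grow (Γ.fn (u i : A)) z =
        (Real.log ‖σ (x : K)‖ : ℂ) • (Pi.single 0 1 : Fin (d + 1) → ℂ) := by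
      rw [hi, hc, hg]
    have hrj : grow (Γ.fn (u j : A)) z =
        (Real.log ‖σ (y : K)‖ : ℂ) • (Pi.single 0 1 : Fin (d + 1) → ℂ) := by
      rw [hj, hc, hg]
    refine (Matrix.detRowAlternating (R := ℂ) (n := Fin (d + 1))).map_linearDependent
      (fun l => grow (Γ.fn (u l : A)) z) ?_
    intro hli
    have hinj : Function.Injective (![i, j] : Fin 2 → Fin (d + 1)) := by
      intro p q hpq
      fin_cases p <;> fin_cases q
      · rfl
      · exact absurd hpq hij
      · exact absurd hpq hij.symm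
      · rfl
    have h2 := hli.comp ![i, j] hinj
    have h3 : LinearIndependent ℂ ![grow (Γ.fn (u i : A)) z, grow (Γ.fn (u j : A)) z] := by
      have e : ((fun l => grow (Γ.fn (u l : A)) z) ∘ ![i, j]) =
          ![grow (Γ.fn (u i : A)) z, grow (Γ.fn (u j : A)) z] := by
        funext p
        fin_cases p <;> rfl
      rw [← e]
      exact h2
    rw [hri, hrj] at h3
    by_cases hx : (Real.log ‖σ (x : K)‖ : ℂ) = 0
    · have h4 := LinearIndependent.pair_iff.1 h3 1 0 (by rw [hx]; simp)
      exact one_ne_zero h4.1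
    · have h4 := LinearIndependent.pair_iff.1 h3 (Real.log ‖σ (y : K)‖ : ℂ)
        (-(Real.log ‖σ (x : K)‖ : ℂ)) (by
          rw [smul_smul, smul_smul, ← add_smul]
          have : (Real.log ‖σ (y : K)‖ : ℂ) * (Real.log ‖σ (x : K)‖ : ℂ) +
            -(Real.log ‖σ (x : K)‖ : ℂ) * (Real.log ‖σ (y : K)‖ : ℂ) = 0 := by ring
          rw [this, zero_smul])
      exact hx (neg_eq_zero.1 h4.2)
  rw [h1, mul_zero]
  rfl

theorem altP_psi : AltP (psi cst L d) := by
  intro u i j hij h
  unfold psi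
  refine Prod.ext ?_ ?_
  · show KQ.map (d + 1) (algebraMap A L) (symb u) = 0
    rw [KQ.map_symb]
    exact Pool.Agent.TH826.SX.symb_self _ hij (by rw [h])
  · show regs cst d (symb u) = 0
    funext Γ
    rw [regs_apply, Torus.reg_symb]
    exact pair_eq_zero d Γ.1 u hij h

/-- the span of the images of the symbols which start with two constants -/
noncomputable def PTwo (k : ℕ) :
    Submodule ℚ (KQ L (k + 1 + 1) × ({Γ : Torus A (k + 1) // ∃ σ, Over cst (k + 1) σ Γ} → ℝ)) :=
  Submodule.span ℚ {z | ∃ (c c' : Kˣ) (w : Fin k → Aˣ), z = psi cst L (k + 1)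
    (symb (Fin.cons (cu cst c) (Fin.cons (cu cst c') w : Fin (k + 1) → Aˣ) :
      Fin (k + 1 + 1) → Aˣ))}

theorem PTwo_snd {k : ℕ}
    {z : KQ L (k + 1 + 1) × ({Γ : Torus A (k + 1) // ∃ σ, Over cst (k + 1) σ Γ} → ℝ)}
    (hz : z ∈ PTwo cst L k) : z.2 = 0 := by
  unfold PTwo at hz
  induction hz using Submodule.span_induction with
  | mem z hz =>
    obtain ⟨c, c', w, rfl⟩ := hz
    show regs cst (k + 1) (symb _) = 0
    funext Γ
    obtain ⟨σ, hσ⟩ := Γ.2
    rw [regs_apply, Torus.reg_symb]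
    exact pair_two cst (k + 1) Γ.1 hσ _ (Fin.succ_ne_zero (0 : Fin (k + 1))).symm rfl rfl
  | zero => rfl
  | add x y _ _ hx hy => rw [Prod.snd_add, hx, hy, add_zero]
  | smul q x _ hx => rw [Prod.smul_snd, hx, smul_zero]

theorem PTwo_fst {k : ℕ}
    {z : KQ L (k + 1 + 1) × ({Γ : Torus A (k + 1) // ∃ σ, Over cst (k + 1) σ Γ} → ℝ)}
    (hz : z ∈ PTwo cst L k) : z.1 ∈ Two ((algebraMap A L).comp cst) (k + 1 + 1) := by
  unfold PTwo at hz
  induction hz using Submodule.span_induction with
  | mem z hz =>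
    obtain ⟨c, c', w, rfl⟩ := hz
    show KQ.map (k + 1 + 1) (algebraMap A L) (symb _) ∈ _
    rw [KQ.map_symb]
    exact Submodule.subset_span ⟨_, 0, Fin.succ 0, c, c',
      (Fin.succ_ne_zero (0 : Fin (k + 1))).symm, rfl, rfl, rfl⟩
  | zero => exact Submodule.zero_mem _
  | add x y _ _ hx hy => exact Submodule.add_mem _ hx hy
  | smul q x _ hx => exact Submodule.smul_mem _ _ hx

end psi

section unr

variable {K : Type*} [Field K] {k m : ℕ} {c : Fin (m + 1) → Fin (k + 1 + 1) → K}
  {a : Fin (m + 1) → K} {lam : K} {L : Type*} [Field L] [Algebra (GRing lam c a) L]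

/-- the constants in the entries of the symbols of the simplices -/
noncomputable def cc (c : Fin (m + 1) → Fin (k + 1 + 1) → K)
    (t : {s : Finset (Fin m) // s.card = k + 1 + 1}) (i : Fin (k + 1 + 1)) : Kˣ :=
  ku (gam c (splx t) i.succ) / ku (gam c (splx t) 0)

theorem gent_eq (t : {s : Finset (Fin m) // s.card = k + 1 + 1}) :
    gent lam c a (splx t) = fun i => cu (gcst lam c a) (cc c t i) * bq lam c a (oe t i) := by
  funext i
  have h1 : gz lam c a (splx t) i.succ =
      cu (gcst lam c a) (ku (gam c (splx t) i.succ)) * gu lam c a (oe t i).succ := rfl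
  have h2 : gz lam c a (splx t) 0 =
      cu (gcst lam c a) (ku (gam c (splx t) 0)) * gu lam c a 0 := rfl
  show gz lam c a (splx t) i.succ / gz lam c a (splx t) 0 = _
  rw [h1, h2]
  unfold cc bq
  rw [map_div, mul_div_mul_comm]

theorem exists_plF {A L F : Type*} [CommRing A] [Field L] [Algebra A L] [IsFractionRing A L]
    [Field F] (p : A →+* HahnSeries ℤ F) (hi : Function.Injective p) :
    ∃ q : L →+* HahnSeries ℤ F, ∀ f, q (algebraMap A L f) = p f :=
  ⟨IsFractionRing.lift hi, fun f => IsFractionRing.lift_algebraMap hi f⟩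

theorem exists_plL [IsFractionRing (GRing lam c a) L] {T : Fin (k + 1 + 1) → Fin (m + 1)}
    (D : PD lam c a T) (hi : Function.Injective D.pl) :
    ∃ q : L →+* HahnSeries ℤ (FF K k), ∀ f, q (algebraMap (GRing lam c a) L f) = D.pl f :=
  exists_plF D.pl hi

/-- the embedding of the field of functions -/
noncomputable def plL [IsFractionRing (GRing lam c a) L] {T : Fin (k + 1 + 1) → Fin (m + 1)}
    (D : PD lam c a T) (hi : Function.Injective D.pl) : L →+* HahnSeries ℤ (FF K k) :=
  (exists_plL D hi).choose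

theorem plL_alg [IsFractionRing (GRing lam c a) L] {T : Fin (k + 1 + 1) → Fin (m + 1)}
    (D : PD lam c a T) (hi : Function.Injective D.pl) (f : GRing lam c a) :
    plL (L := L) D hi (algebraMap (GRing lam c a) L f) = D.pl f :=
  (exists_plL (L := L) D hi).choose_spec f

theorem map_plL [IsFractionRing (GRing lam c a) L] {T : Fin (k + 1 + 1) → Fin (m + 1)}
    (D : PD lam c a T) (hi : Function.Injective D.pl) (α : KQ (GRing lam c a) (k + 1 + 1)) :
    KQ.map (k + 1 + 1) (plL (L := L) D hi) (KQ.map (k + 1 + 1) (algebraMap (GRing lam c a) L) α) =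
      KQ.map (k + 1 + 1) D.pl α := by
  have h1 : α ∈ Submodule.span ℚ (Set.range (symb : (Fin (k + 1 + 1) → (GRing lam c a)ˣ) → _)) := by
    rw [span_symb]
    trivial
  induction h1 using Submodule.span_induction with
  | mem z hz =>
    obtain ⟨u, rfl⟩ := hz
    rw [KQ.map_symb, KQ.map_symb, KQ.map_symb]
    congr 1
    funext i
    refine Units.ext ?_
    show plL (L := L) D hi (algebraMap (GRing lam c a) L (u i : GRing lam c a)) = _
    rw [plL_alg]
    rfl
  | zero => simp only [map_zero]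
  | add x y _ _ hx hy => simp only [map_add, hx, hy]
  | smul q x _ hx => simp only [map_smul, hx]

/-- the functional vanishes at unramified elements -/
theorem DF_unr [IsFractionRing (GRing lam c a) L] {T : Fin (k + 1 + 1) → Fin (m + 1)}
    (D : PD lam c a T) (hi : Function.Injective D.pl) (hT : (cm c T).det ≠ 0)
    (φ : KQ K 1 →ₗ[ℚ] ℚ)
    {α : KQ (GRing lam c a) (k + 1 + 1)}
    (hα : KQ.map (k + 1 + 1) (algebraMap (GRing lam c a) L) α ∈
      UnramifiedOver ((algebraMap (GRing lam c a) L).comp (gcst lam c a)) (k + 1 + 1)) :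
    DF D φ α = 0 := by
  unfold DF
  rw [LinearMap.comp_apply, ← map_plL (L := L) D hi]
  refine DR_unr (good_RR φ) (Fin.succ 0) ?_ _ (plL (L := L) D hi) ?_ ?_ hα
  · intro f hf
    show (((f : HahnSeries ℤ (FF K k)).order : ℤ) : ℚ) = 0
    rw [hf, Int.cast_zero]
  · intro x hx
    rw [RingHom.comp_apply, plL_alg, D.pl_gcst, CK_apply, HahnSeries.order_C]
  · refine ⟨algebraMap (GRing lam c a) L (gpol lam c a (lf c a (T 0))), ?_, ?_⟩
    · intro h0
      have h1 := congrArg (plL (L := L) D hi) h0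
      rw [plL_alg, D.pl_T hT, map_zero] at h1
      exact Pool.Agent.X232.CU.ti_ne_zero h1
    · rw [plL_alg, D.pl_T hT]
      exact order_ti

/-- the functional vanishes at symbols with two constants -/
theorem DF_two {T : Fin (k + 1 + 1) → Fin (m + 1)} (D : PD lam c a T) (φ : KQ K 1 →ₗ[ℚ] ℚ)
    (x y : Kˣ) (w : Fin k → (GRing lam c a)ˣ) :
    DF D φ (symb (Fin.cons (cu (gcst lam c a) x) (Fin.cons (cu (gcst lam c a) y) w :
      Fin (k + 1) → (GRing lam c a)ˣ) : Fin (k + 1 + 1) → (GRing lam c a)ˣ)) = 0 := by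
  rw [DF_symb]
  exact det_par (i := 0) (j := Fin.succ 0) (Fin.succ_ne_zero (0 : Fin (k + 1))).symm
    (x := φ (s1 K x)) (y := φ (s1 K y)) (E := (Fin.cons 1 0 : Fin (k + 1 + 1) → ℚ))
    (D.rho_const φ x) (D.rho_const φ y)

theorem DF_PTwo [IsFractionRing (GRing lam c a) L] {T : Fin (k + 1 + 1) → Fin (m + 1)}
    (D : PD lam c a T) (hi : Function.Injective D.pl) (φ : KQ K 1 →ₗ[ℚ] ℚ)
    {α : KQ (GRing lam c a) (k + 1 + 1)}
    (h : psi (gcst lam c a) L (k + 1) α ∈ PTwo (gcst lam c a) L k) : DF D φ α = 0 := by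
  have h1 : ∀ z ∈ PTwo (gcst lam c a) L k,
      DR (good_RR φ) (KQ.map (k + 1 + 1) (plL (L := L) D hi) z.1) = 0 := by
    intro z hz
    unfold PTwo at hz
    induction hz using Submodule.span_induction with
    | mem z hz =>
      obtain ⟨x, y, w, rfl⟩ := hz
      show DR (good_RR φ) (KQ.map (k + 1 + 1) (plL (L := L) D hi)
        (KQ.map (k + 1 + 1) (algebraMap (GRing lam c a) L) (symb _))) = 0
      rw [map_plL]
      exact DF_two D φ x y w
    | zero => rw [Prod.fst_zero, map_zero, map_zero]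
    | add x y _ _ hx hy => rw [Prod.fst_add, map_add, map_add, hx, hy, add_zero]
    | smul q x _ hx => rw [Prod.smul_fst, map_smul, map_smul, hx, smul_zero]
  have h2 := h1 _ h
  unfold DF
  rw [LinearMap.comp_apply, ← map_plL (L := L) D hi]
  exact h2

universe u in
theorem exists_enum (K : Type u) [Field K] :
    ∃ (J : Type u) (_ : LinearOrder J) (g : J → Kˣ), Function.Surjective g := by
  classical
  exact ⟨Kˣ, linearOrderOfSTO WellOrderingRel, id, Function.surjective_id⟩

/-- The unramified elements are combinations of the symbols of the simplices, up to elements whose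
image is a combination of symbols with two constant entries and whose regulators vanish. -/
theorem unr_eq [IsFractionRing (GRing lam c a) L] (hG : GenPos c a) (hm : k + 1 ≤ m)
    (hlam : lam ≠ 0)
    (hcl : ∀ t : {s : Finset (Fin m) // s.card = k + 1 + 1},
      KQ.map (k + 1 + 1) (algebraMap (GRing lam c a) L) (symb (gent lam c a (splx t))) ∈
        UnramifiedOver ((algebraMap (GRing lam c a) L).comp (gcst lam c a)) (k + 1 + 1))
    {α : KQ (GRing lam c a) (k + 1 + 1)}
    (hα : KQ.map (k + 1 + 1) (algebraMap (GRing lam c a) L) α ∈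
      UnramifiedOver ((algebraMap (GRing lam c a) L).comp (gcst lam c a)) (k + 1 + 1)) :
    ∃ q : {s : Finset (Fin m) // s.card = k + 1 + 1} → ℚ,
      psi (gcst lam c a) L (k + 1) (α - ∑ t, q t • symb (gent lam c a (splx t))) ∈
        PTwo (gcst lam c a) L k := by
  classical
  obtain ⟨J, _, g, hg⟩ := exists_enum K
  set M := PTwo (gcst lam c a) L k with hM
  set Ψ := M.mkQ.comp (psi (gcst lam c a) L (k + 1)) with hΨ
  have hzero : ∀ x, Ψ x = 0 ↔ psi (gcst lam c a) L (k + 1) x ∈ M := fun x => by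
    rw [hΨ, LinearMap.comp_apply, Submodule.mkQ_apply, Submodule.Quotient.mk_eq_zero]
  have hA : AltP Ψ := by
    intro u i j hij h
    rw [hΨ, LinearMap.comp_apply, altP_psi (gcst lam c a) L (k + 1) u i j hij h, map_zero]
  have h2 : TwoC (gcst lam c a) Ψ := by
    intro x y w
    rw [hzero]
    exact Submodule.subset_span ⟨x, y, w, rfl⟩
  obtain ⟨q, κ, h⟩ := image_eq (cst := gcst lam c a) (b := bq lam c a) hg h2
    hA (units_GG hG.1 hm hlam hg) (cc c) α
  simp only [← gent_eq] at h
  refine ⟨q, ?_⟩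
  have h0 : psi (gcst lam c a) L (k + 1) (α - ∑ t, q t • symb (gent lam c a (splx t)) -
      ∑ S, th1 (gcst lam c a) (bq lam c a ∘ oe S) (κ S)) ∈ M := by
    rw [← hzero, map_sub, map_sub, h]
    abel
  have hκ : κ = 0 := by
    funext S
    rw [Pi.zero_apply, ← Module.forall_dual_apply_eq_zero_iff ℚ]
    intro φ
    obtain ⟨η, h3, h4⟩ := exists_etaG (a := a) hG.1 (tS_inj S) hlam
    set D : PD lam c a (tS S) := ⟨η, h3, h4⟩ with hD
    have hT := hG.1 _ (tS_inj S)
    have hdom : IsDomain (GRing lam c a) :=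
      Pool.Agent.TH826.GA.isDomain_GRing (d := k) hG.1 hm hlam
    have hi := D.pl_inj hT
    have h7 := DF_PTwo D hi φ h0
    have h8 : DF D φ (∑ t, q t • symb (gent lam c a (splx t))) = 0 := by
      rw [map_sum]
      refine Finset.sum_eq_zero fun t _ => ?_
      rw [map_smul, DF_unr D hi hT φ (hcl t), smul_zero]
    rw [map_sub, map_sub, DF_unr D hi hT φ hα, h8, sub_zero, zero_sub, neg_eq_zero, map_sum,
      Finset.sum_eq_single S] at h7
    · rw [DF_self φ hG.1 D hlam] at h7
      have h9 : ((m : ℚ) + 1) ≠ 0 := by positivity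
      exact (mul_eq_zero.1 h7).resolve_left h9
    · intro S' _ hS'
      exact DF_other φ hG.1 D hS' (κ S')
    · intro h
      exact absurd (Finset.mem_univ S) h
  rw [hκ] at h0
  simpa using h0

end unr

end Pool.Agent.X232.CG
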