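import Pool.Agent.X232.CG.Alt
set_option autoImplicit false

/-!
The values of an alternating linear map on the rational Milnor K-group of a ring whose units are, up
to finite index, products of constants and of finitely many units `b_j`, if `K_2` of the field of
constants vanishes rationally.
-/

namespace Pool.Agent.X232.CG

open Pool.Agent.TH826.MK

open Pool.Agent.X232.CF (cu coe_cu)

open Pool.Agent.X232.CU (s1 s1_mul s1_one span_symb)

variable {K A : Type*} [Field K] [CommRing A] (cst : K →+* A) {k m : ℕ} (b : Fin m → Aˣ)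

theorem cons_update_zero {n : ℕ} (x y : Aˣ) (w : Fin n → Aˣ) :
    Function.update (Fin.cons x w : Fin (n + 1) → Aˣ) 0 y = Fin.cons y w :=
  Fin.update_cons_zero _ _ _

/-- the symbol `{c, w_1, ..., w_n}` with a constant `c`, as a function on `K_1` -/
noncomputable def th1 (w : Fin (k + 1) → Aˣ) : KQ K 1 →ₗ[ℚ] KQ A (k + 1 + 1) :=
  KQ.lift (fun c => symb (Fin.cons (cu cst (c 0)) w)) (by
    intro a i x y
    have hi : i = 0 := Subsingleton.elim _ _
    subst hi
    simp only [Function.update_self, map_mul]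
    have h := symb_update_mul (Fin.cons 1 w : Fin (k + 1 + 1) → Aˣ) 0 (cu cst x) (cu cst y)
    simp only [cons_update_zero] at h
    exact h) (by
    rintro a ⟨i, j, hij, -⟩
    exact absurd (Subsingleton.elim i j) hij.ne)

theorem th1_s1 (w : Fin (k + 1) → Aˣ) (c : Kˣ) :
    th1 cst w (s1 K c) = symb (Fin.cons (cu cst c) w) := by
  unfold th1 s1
  rw [KQ.lift_symb]

/-- Symbols with two constant entries vanish. -/
theorem two_const (h2 : ∀ z : KQ K 2, z = 0) (c c' : Kˣ) (w : Fin k → Aˣ) :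
    symb (Fin.cons (cu cst c) (Fin.cons (cu cst c') w : Fin (k + 1) → Aˣ) :
      Fin (k + 1 + 1) → Aˣ) = 0 := by
  have key : ∀ (x y : Kˣ), (Fin.cons (cu cst x) (Fin.cons (cu cst y) w : Fin (k + 1) → Aˣ) :
      Fin (k + 1 + 1) → Aˣ) = Function.update (Fin.cons (cu cst x) (Fin.cons 1 w :
        Fin (k + 1) → Aˣ) : Fin (k + 1 + 1) → Aˣ) (Fin.succ 0) (cu cst y) := by
    intro x y
    rw [← Fin.cons_update, Fin.update_cons_zero]
  let φ : KQ K 2 →ₗ[ℚ] KQ A (k + 1 + 1) := KQ.lift
    (fun c => symb (Fin.cons (cu cst (c 0)) (Fin.cons (cu cst (c 1)) w : Fin (k + 1) → Aˣ)))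
    (by
      intro a i x y
      fin_cases i
      · simp only [Fin.zero_eta, Function.update_self, ne_eq, one_ne_zero, not_false_eq_true,
          Function.update_of_ne, map_mul]
        have h := symb_update_mul (Fin.cons 1 (Fin.cons (cu cst (a 1)) w : Fin (k + 1) → Aˣ) :
          Fin (k + 1 + 1) → Aˣ) 0 (cu cst x) (cu cst y)
        simp only [cons_update_zero] at h
        exact h
      · simp only [Fin.mk_one, Function.update_self, ne_eq, zero_ne_one, not_false_eq_true,
          Function.update_of_ne, map_mul]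
        have h := symb_update_mul (Fin.cons (cu cst (a 0)) (Fin.cons 1 w : Fin (k + 1) → Aˣ) :
          Fin (k + 1 + 1) → Aˣ) (Fin.succ 0) (cu cst x) (cu cst y)
        rw [← Fin.cons_update, ← Fin.cons_update, ← Fin.cons_update, Fin.update_cons_zero,
          Fin.update_cons_zero, Fin.update_cons_zero] at h
        exact h)
    (by
      rintro a ⟨i, j, hij, h⟩
      have hi : i = 0 := by
        ext
        have := i.2
        have := j.2
        have : (i : ℕ) < j := hij
        simp only [Fin.coe_ofNat_eq_mod]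
        omega
      have hj : j = 1 := by
        ext
        have := i.2
        have := j.2
        have : (i : ℕ) < j := hij
        simp only [Fin.coe_ofNat_eq_mod]
        omega
      subst hi
      subst hj
      refine symb_eq_zero _ ⟨0, Fin.succ 0, Fin.succ_pos 0, ?_⟩
      rw [Fin.cons_zero, Fin.cons_succ, Fin.cons_zero, coe_cu, coe_cu, ← map_add, h, map_one])
  have h3 : φ (symb ![c, c']) = symb (Fin.cons (cu cst c) (Fin.cons (cu cst c') w :
      Fin (k + 1) → Aˣ)) := KQ.lift_symb _ _ _ _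
  rw [← h3, h2 (symb ![c, c']), map_zero]

variable {J : Type*} [LinearOrder J] (g : J → Kˣ)

/-- the family of the constants and the generators -/
noncomputable def gv : J ⊕ₗ Fin m → Aˣ := fun i => Sum.elim (fun j => cu cst (g j)) b (ofLex i)

/-- the group generated by the constants and the generators -/
noncomputable def GG : Subgroup Aˣ := Subgroup.closure (Set.range (gv cst b g))

theorem cu_mem (hg : Function.Surjective g) (c : Kˣ) : cu cst c ∈ GG cst b g := by
  obtain ⟨j, rfl⟩ := hg c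
  exact Subgroup.subset_closure ⟨toLex (Sum.inl j), rfl⟩

theorem b_mem (j : Fin m) : b j ∈ GG cst b g :=
  Subgroup.subset_closure ⟨toLex (Sum.inr j), rfl⟩

theorem gv_inl (j : J) : gv cst b g (toLex (Sum.inl j)) = cu cst (g j) := rfl

theorem gv_inr (j : Fin m) : gv cst b g (toLex (Sum.inr j)) = b j := rfl

/-- an increasing family is either a family of generators, or starts with a constant -/
theorem emb_cases {J : Type*} [LinearOrder J] {n : ℕ} (τ : Fin (n + 1) ↪o J ⊕ₗ Fin m) :
    (∃ S : Fin (n + 1) ↪o Fin m, ∀ i, τ i = toLex (Sum.inr (S i))) ∨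
    ∃ j, τ 0 = toLex (Sum.inl j) := by
  rcases h0 : ofLex (τ 0) with j | j
  · right
    exact ⟨j, congrArg toLex h0⟩
  · left
    have h1 : ∀ i, ∃ s, τ i = toLex (Sum.inr s) := by
      intro i
      rcases hi : ofLex (τ i) with l | l
      · exfalso
        have h2 : τ 0 ≤ τ i := τ.monotone (Fin.zero_le i)
        have e0 : τ 0 = toLex (Sum.inr j) := congrArg toLex h0
        have ei : τ i = toLex (Sum.inl l) := congrArg toLex hi
        rw [e0, ei] at h2
        exact Sum.Lex.not_inr_le_inl h2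
      · exact ⟨l, congrArg toLex hi⟩
    choose S hS using h1
    refine ⟨OrderEmbedding.ofStrictMono S fun i j hij => ?_, hS⟩
    have h2 := τ.strictMono hij
    rw [hS, hS] at h2
    exact Sum.Lex.inr_lt_inr_iff.1 h2

/-- The increasing families of `n` elements of `Fin m` are given by the subsets with `n`
elements. -/
theorem emb_eq {n : ℕ} (S : Fin n ↪o Fin m) : ∃ t : {s : Finset (Fin m) // s.card = n},
    S = t.1.orderEmbOfFin t.2 := by
  refine ⟨⟨Finset.univ.map S.toEmbedding, by simp⟩, ?_⟩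
  refine Finset.orderEmbOfFin_unique' _ fun x => ?_
  simp

/-- the increasing family of the elements of a finite set -/
noncomputable def oe {n : ℕ} (t : {s : Finset (Fin m) // s.card = n}) : Fin n → Fin m :=
  t.1.orderEmbOfFin t.2

variable {W : Type*} [AddCommGroup W] [Module ℚ W] (Ψ : KQ A (k + 1 + 1) →ₗ[ℚ] W)

/-- the span of the values at the symbols `{c, b_{S 1}, ..., b_{S d}}` -/
noncomputable def CC : Submodule ℚ W :=
  ⨆ S : {s : Finset (Fin m) // s.card = k + 1}, LinearMap.range (Ψ.comp (th1 cst (b ∘ oe S)))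

/-- the map vanishes at the symbols which start with two constants -/
def TwoC (cst : K →+* A) (Ψ : KQ A (k + 1 + 1) →ₗ[ℚ] W) : Prop :=
  ∀ (c c' : Kˣ) (w : Fin k → Aˣ), Ψ (symb (Fin.cons (cu cst c) (Fin.cons (cu cst c') w :
    Fin (k + 1) → Aˣ) : Fin (k + 1 + 1) → Aˣ)) = 0

variable {cst b g Ψ}

theorem cc_S (c : Kˣ) (S : Fin (k + 1) ↪o Fin m) :
    Ψ (symb (Fin.cons (cu cst c) (b ∘ S) : Fin (k + 1 + 1) → Aˣ)) ∈ CC cst b Ψ := by
  obtain ⟨t, ht⟩ := emb_eq S
  refine Submodule.mem_iSup_of_mem t ⟨s1 K c, ?_⟩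
  rw [LinearMap.comp_apply, th1_s1, ht]
  rfl

theorem cc_coord {x : W} (hx : x ∈ CC cst b Ψ) :
    ∃ κ : {s : Finset (Fin m) // s.card = k + 1} → KQ K 1,
      x = Ψ (∑ S, th1 cst (b ∘ oe S) (κ S)) := by
  classical
  unfold CC at hx
  induction hx using Submodule.iSup_induction' with
  | mem S x hx =>
    obtain ⟨z, rfl⟩ := hx
    refine ⟨Pi.single S z, ?_⟩
    rw [Finset.sum_eq_single S]
    · rw [Pi.single_eq_same]
      rfl
    · intro T _ hT
      rw [Pi.single_eq_of_ne hT, map_zero]
    · intro h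
      exact absurd (Finset.mem_univ S) h
  | zero => exact ⟨0, by simp⟩
  | add x y _ _ hx hy =>
    obtain ⟨κ, rfl⟩ := hx
    obtain ⟨κ', rfl⟩ := hy
    refine ⟨κ + κ', ?_⟩
    rw [← map_add, ← Finset.sum_add_distrib]
    simp only [Pi.add_apply, map_add]

theorem const_zero_mem (h2 : TwoC cst Ψ) (hΨ : AltP Ψ) (c : Kˣ)
    (w : Fin (k + 1) → Aˣ) (hw : ∀ i, w i ∈ GG cst b g) :
    Ψ (symb (Fin.cons (cu cst c) w : Fin (k + 1 + 1) → Aˣ)) ∈ CC cst b Ψ := by
  have h := mk_span (φ := fun w : Fin (k + 1) → Aˣ =>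
      Ψ (symb (Fin.cons (cu cst c) w : Fin (k + 1 + 1) → Aˣ))) (by
    intro a i x y
    have h3 := symb_map_mul Ψ (Fin.cons (cu cst c) a : Fin (k + 1 + 1) → Aˣ) i.succ x y
    rw [← Fin.cons_update, ← Fin.cons_update, ← Fin.cons_update] at h3
    exact h3) (by
    intro u i j hij he
    refine hΨ _ i.succ j.succ (fun e => hij (Fin.succ_injective _ e)) ?_
    rw [Fin.cons_succ, Fin.cons_succ, he]) (gv cst b g) w hw
  refine (Submodule.span_le.2 ?_) h
  rintro _ ⟨τ, rfl⟩
  rcases emb_cases τ with ⟨S, hS⟩ | ⟨j, hj⟩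
  · have e : gv cst b g ∘ τ = b ∘ S := by
      funext i
      rw [Function.comp_apply, hS, gv_inr]
      rfl
    show Ψ (symb (Fin.cons (cu cst c) (gv cst b g ∘ τ) : Fin (k + 1 + 1) → Aˣ)) ∈ CC cst b Ψ
    rw [e]
    exact cc_S c S
  · have e : gv cst b g ∘ τ = Fin.cons (cu cst (g j)) (Fin.tail (gv cst b g ∘ τ)) := by
      rw [← Fin.cons_self_tail (gv cst b g ∘ τ)]
      congr 1
      show gv cst b g (τ 0) = _
      rw [hj]
      rfl
    show Ψ (symb (Fin.cons (cu cst c) (gv cst b g ∘ τ) : Fin (k + 1 + 1) → Aˣ)) ∈ CC cst b Ψ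
    rw [e, h2]
    exact Submodule.zero_mem _

theorem altP_swap (hΨ : AltP Ψ) (u : Fin (k + 1 + 1) → Aˣ) {i j : Fin (k + 1 + 1)} (hij : i ≠ j) :
    Ψ (symb (u ∘ Equiv.swap i j)) = - Ψ (symb u) := by
  have h := (mkAlt (fun u => Ψ (symb u)) (symb_map_mul Ψ) hΨ).map_swap
    (fun l => Additive.ofMul (u l)) hij
  exact h

theorem const_mem (h2 : TwoC cst Ψ) (hΨ : AltP Ψ) (c : Kˣ) (i : Fin (k + 1 + 1))
    (u : Fin (k + 1 + 1) → Aˣ) (hi : u i = cu cst c) (hu : ∀ j, u j ∈ GG cst b g) :
    Ψ (symb u) ∈ CC cst b Ψ := by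
  by_cases h0 : i = 0
  · subst h0
    have e : u = Fin.cons (cu cst c) (Fin.tail u) := by
      rw [← hi, Fin.cons_self_tail]
    rw [e]
    exact const_zero_mem h2 hΨ c _ fun j => hu j.succ
  · have e : u ∘ Equiv.swap 0 i = Fin.cons (cu cst c) (Fin.tail (u ∘ Equiv.swap 0 i)) := by
      have h5 : (u ∘ Equiv.swap 0 i) 0 = cu cst c := by
        show u (Equiv.swap 0 i 0) = _
        rw [Equiv.swap_apply_left, hi]
      rw [← h5, Fin.cons_self_tail]
    have h3 := altP_swap hΨ u (Ne.symm h0)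
    have h4 : Ψ (symb (u ∘ Equiv.swap 0 i)) ∈ CC cst b Ψ := by
      rw [e]
      exact const_zero_mem h2 hΨ c _ fun j => hu _
    rw [h3] at h4
    exact (Submodule.neg_mem_iff _).1 h4

theorem replace_mem (hg : Function.Surjective g) (h2 : TwoC cst Ψ) (hΨ : AltP Ψ)
    (c : Fin (k + 1 + 1) → Kˣ) (u : Fin (k + 1 + 1) → Aˣ) (hu : ∀ j, u j ∈ GG cst b g) :
    Ψ (symb fun i => cu cst (c i) * u i) - Ψ (symb u) ∈ CC cst b Ψ := by
  classical
  have key : ∀ s : Finset (Fin (k + 1 + 1)),
      Ψ (symb fun i => if i ∈ s then cu cst (c i) * u i else u i) - Ψ (symb u) ∈ CC cst b Ψ := by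
    intro s
    induction s using Finset.induction_on with
    | empty => simp
    | insert j s hj ih =>
      set v : Fin (k + 1 + 1) → Aˣ := fun i => if i ∈ s then cu cst (c i) * u i else u i with hv
      have hvm : ∀ i, v i ∈ GG cst b g := by
        intro i
        simp only [hv]
        split_ifs
        · exact Subgroup.mul_mem _ (cu_mem cst b g hg _) (hu i)
        · exact hu i
      have e1 : (fun i => if i ∈ insert j s then cu cst (c i) * u i else u i) =
          Function.update v j (cu cst (c j) * u j) := by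
        funext i
        by_cases hi : i = j
        · subst hi; simp
        · simp [hv, hi]
      have e2 : Function.update v j (u j) = v := by
        rw [Function.update_eq_self_iff]
        simp [hv, hj]
      rw [e1, symb_map_mul, e2, add_sub_assoc]
      refine Submodule.add_mem _ ?_ ih
      refine const_mem (g := g) h2 hΨ (c j) j _ (Function.update_self _ _ _) fun i => ?_
      by_cases hi : i = j
      · subst hi
        rw [Function.update_self]
        exact cu_mem cst b g hg _
      · rw [Function.update_of_ne hi]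
        exact hvm i
  have h := key Finset.univ
  simpa using h

theorem pow_mem_symb (Ψ : KQ A (k + 1 + 1) →ₗ[ℚ] W) (hU : ∀ u : Aˣ, ∃ N : ℕ, 0 < N ∧
    u ^ N ∈ GG cst b g) (V : Submodule ℚ W)
    (h : ∀ u : Fin (k + 1 + 1) → Aˣ, (∀ i, u i ∈ GG cst b g) → Ψ (symb u) ∈ V)
    (u : Fin (k + 1 + 1) → Aˣ) : Ψ (symb u) ∈ V := by
  classical
  have key : ∀ s : Finset (Fin (k + 1 + 1)), ∀ u : Fin (k + 1 + 1) → Aˣ,
      (∀ i, i ∉ s → u i ∈ GG cst b g) → Ψ (symb u) ∈ V := by
    intro s
    induction s using Finset.induction_on with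
    | empty => exact fun u hu => h u fun i => hu i (Finset.notMem_empty i)
    | insert j s hj ih =>
      intro u hu
      obtain ⟨N, hN, hN2⟩ := hU (u j)
      have h1 := symb_update_zpow u j (u j) N
      rw [Function.update_eq_self, zpow_natCast] at h1
      have h3 : Ψ (symb (Function.update u j (u j ^ N))) ∈ V := by
        refine ih _ fun i hi => ?_
        by_cases hij : i = j
        · subst hij
          rw [Function.update_self]
          exact hN2
        · rw [Function.update_of_ne hij]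
          exact hu i (by simp [hij, hi])
      rw [h1, map_smul] at h3
      have h4 := V.smul_mem (((N : ℤ) : ℚ)⁻¹) h3
      rwa [smul_smul, inv_mul_cancel₀ (by exact_mod_cast hN.ne'), one_smul] at h4
  exact key Finset.univ u fun i hi => absurd (Finset.mem_univ i) hi

/-- The image of the whole K-group. -/
theorem image_mem (hg : Function.Surjective g) (h2 : TwoC cst Ψ) (hΨ : AltP Ψ)
    (hU : ∀ u : Aˣ, ∃ N : ℕ, 0 < N ∧ u ^ N ∈ GG cst b g)
    (c : {s : Finset (Fin m) // s.card = k + 1 + 1} → Fin (k + 1 + 1) → Kˣ)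
    (α : KQ A (k + 1 + 1)) :
    Ψ α ∈ Submodule.span ℚ (Set.range fun t : {s : Finset (Fin m) // s.card = k + 1 + 1} =>
      Ψ (symb fun i => cu cst (c t i) * b (oe t i))) ⊔ CC cst b Ψ := by
  set V : Submodule ℚ W := Submodule.span ℚ (Set.range fun t : {s : Finset (Fin m) //
      s.card = k + 1 + 1} => Ψ (symb fun i => cu cst (c t i) * b (oe t i))) ⊔
        CC cst b Ψ with hV
  have hsy : ∀ u : Fin (k + 1 + 1) → Aˣ, Ψ (symb u) ∈ V := by
    refine pow_mem_symb Ψ hU V fun u hu => ?_
    have h := mk_span (φ := fun u => Ψ (symb u)) (symb_map_mul Ψ) hΨ (gv cst b g) u hu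
    refine (Submodule.span_le.2 ?_) h
    rintro _ ⟨τ, rfl⟩
    show Ψ (symb (gv cst b g ∘ τ)) ∈ V
    rcases emb_cases τ with ⟨S, hS⟩ | ⟨j, hj⟩
    · have e : gv cst b g ∘ τ = b ∘ S := by
        funext i
        rw [Function.comp_apply, hS, gv_inr]
        rfl
      rw [e]
      obtain ⟨t, ht⟩ := emb_eq S
      have h3 := replace_mem hg h2 hΨ (c t) (b ∘ S) fun i => b_mem cst b g _
      have h4 : Ψ (symb fun i => cu cst (c t i) * (b ∘ S) i) ∈ V := by
        refine (le_sup_left : _ ≤ V) (Submodule.subset_span ⟨t, ?_⟩)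
        show Ψ (symb fun i => cu cst (c t i) * b (oe t i)) = _
        rw [ht]
        rfl
      have h5 := V.sub_mem h4 ((le_sup_right : _ ≤ V) h3)
      rwa [sub_sub_cancel] at h5
    · refine (le_sup_right : _ ≤ V) (const_mem (g := g) h2 hΨ (g j) 0 _ ?_ fun i => ?_)
      · show gv cst b g (τ 0) = _
        rw [hj]
        rfl
      · exact Subgroup.subset_closure ⟨_, rfl⟩
  have h1 : α ∈ Submodule.span ℚ (Set.range (symb : (Fin (k + 1 + 1) → Aˣ) → _)) := by
    rw [span_symb]
    trivial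
  induction h1 using Submodule.span_induction with
  | mem z hz =>
    obtain ⟨u, rfl⟩ := hz
    exact hsy u
  | zero => rw [map_zero]; exact V.zero_mem
  | add x y _ _ hx hy => rw [map_add]; exact V.add_mem hx hy
  | smul q x _ hx => rw [map_smul]; exact V.smul_mem _ hx

/-- The image of the whole K-group, in coordinates. -/
theorem image_eq (hg : Function.Surjective g) (h2 : TwoC cst Ψ) (hΨ : AltP Ψ)
    (hU : ∀ u : Aˣ, ∃ N : ℕ, 0 < N ∧ u ^ N ∈ GG cst b g)
    (c : {s : Finset (Fin m) // s.card = k + 1 + 1} → Fin (k + 1 + 1) → Kˣ)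
    (α : KQ A (k + 1 + 1)) :
    ∃ (q : {s : Finset (Fin m) // s.card = k + 1 + 1} → ℚ)
      (κ : {s : Finset (Fin m) // s.card = k + 1} → KQ K 1),
      Ψ α = Ψ (∑ t, q t • (symb fun i => cu cst (c t i) * b (oe t i))) +
        Ψ (∑ S, th1 cst (b ∘ oe S) (κ S)) := by
  obtain ⟨x, hx, y, hy, hxy⟩ := Submodule.mem_sup.1 (image_mem hg h2 hΨ hU c α)
  obtain ⟨q, hq⟩ := (Submodule.mem_span_range_iff_exists_fun ℚ).1 hx
  obtain ⟨κ, hκ⟩ := cc_coord hy
  refine ⟨q, κ, ?_⟩
  rw [← hxy, ← hκ, ← hq, map_sum]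
  simp only [map_smul]

end Pool.Agent.X232.CG
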