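import Pool.Agent.X232.CG.Dvd
import Pool.Agent.X232.CG.Sp
import Pool.Agent.X232.CF.E.Unit
import Pool.Agent.TH826.GA.Smooth
set_option autoImplicit false

/-!
Functions on the hypersurface without poles at infinity are constant, and the units of the
coordinate ring.
-/

namespace Pool.Agent.X232.CG

open Pool.Agent.TH826.MK

open Pool.Agent.X232.CF (cu coe_cu)

open Pool.Agent.X232.CU (ti ti_ne_zero order_ti od_coe)

open Pool.Agent.X232.CF.E (PS PS_C ti_X PS_ne ord_mul ord_zpow ord_pow ord_inv ord_prod)

open Pool.Agent.TH826.GA (GRing gpol gcst gu coe_gu lf geqn gpol_geqn prod_gl cm al be fwd bwd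
  fwd_lf al_T be_T al_ne chg)

variable {K : Type*} [Field K] {k m : ℕ} {c : Fin (m + 1) → Fin (k + 1 + 1) → K}
  {a : Fin (m + 1) → K} {lam : K}

section deg

theorem ll_hom (e : Fin (m + 1)) : (ll c e).IsHomogeneous 1 := by
  unfold ll lf
  rw [Pi.zero_apply, map_zero, sub_zero]
  exact MvPolynomial.IsHomogeneous.sum _ _ _ fun j _ => MvPolynomial.isHomogeneous_C_mul_X _ _

theorem lf_eq_ll (e : Fin (m + 1)) : lf c a e = ll c e - MvPolynomial.C (a e) := by
  unfold ll lf
  rw [Pi.zero_apply, map_zero, sub_zero]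

theorem deg_ll (e : Fin (m + 1)) : (ll c e).totalDegree ≤ 1 := (ll_hom e).totalDegree_le

theorem deg_lf (e : Fin (m + 1)) : (lf c a e).totalDegree ≤ 1 := by
  rw [lf_eq_ll, sub_eq_add_neg]
  refine (MvPolynomial.totalDegree_add _ _).trans (max_le (deg_ll e) ?_)
  rw [← map_neg, MvPolynomial.totalDegree_C]
  exact Nat.zero_le _

theorem deg_prod_lf (s : Finset (Fin (m + 1))) : (∏ e ∈ s, lf c a e).totalDegree ≤ s.card := by
  refine (MvPolynomial.totalDegree_finsetProd _ _).trans ?_
  refine (Finset.sum_le_sum fun e _ => deg_lf e).trans ?_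
  simp

theorem deg_diff (s : Finset (Fin (m + 1))) :
    (∏ e ∈ s, lf c a e - ∏ e ∈ s, ll c e).totalDegree ≤ s.card - 1 := by
  classical
  induction s using Finset.induction_on with
  | empty => simp
  | insert e s he ih =>
    rw [Finset.prod_insert he, Finset.prod_insert he, Finset.card_insert_of_notMem he,
      Nat.add_sub_cancel]
    have e1 : lf c a e * ∏ e ∈ s, lf c a e - ll c e * ∏ e ∈ s, ll c e =
        ll c e * (∏ e ∈ s, lf c a e - ∏ e ∈ s, ll c e) +
          MvPolynomial.C (-a e) * ∏ e ∈ s, lf c a e := by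
      rw [lf_eq_ll e, map_neg]
      ring
    rw [e1]
    refine (MvPolynomial.totalDegree_add _ _).trans (max_le ?_ ?_)
    · by_cases hs : s = ∅
      · subst hs
        simp
      · have h1 : 0 < s.card := Finset.card_pos.2 (Finset.nonempty_iff_ne_empty.2 hs)
        refine (MvPolynomial.totalDegree_mul _ _).trans ?_
        have h2 := deg_ll (c := c) e
        omega
    · refine (MvPolynomial.totalDegree_mul _ _).trans ?_
      rw [MvPolynomial.totalDegree_C, zero_add]
      exact deg_prod_lf s

theorem deg_sub_hom {P : MvPolynomial (Fin (k + 1 + 1)) K} {N : ℕ}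
    (hN : P.totalDegree ≤ N + 1) :
    (P - MvPolynomial.homogeneousComponent (N + 1) P).totalDegree ≤ N := by
  refine Finset.sup_le fun n hn => ?_
  have h1 := MvPolynomial.mem_support_iff.1 hn
  rw [MvPolynomial.coeff_sub, MvPolynomial.coeff_homogeneousComponent] at h1
  by_cases h : n.degree = N + 1
  · rw [if_pos h, sub_self] at h1
    exact absurd rfl h1
  · rw [if_neg h, sub_zero] at h1
    have h2 : n.degree ≤ P.totalDegree :=
      MvPolynomial.le_totalDegree (MvPolynomial.mem_support_iff.2 h1)
    have h3 : n.degree ≤ N := by omega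
    exact h3

end deg

section cover

variable (hm : k + 1 + 1 ≤ m + 1)

/-- an injective family with the given element at the place `1` -/
def Te (e : Fin (m + 1)) : Fin (k + 1 + 1) → Fin (m + 1) :=
  Equiv.swap (Fin.castLE hm (Fin.succ 0)) e ∘ Fin.castLE hm

theorem Te_inj (e : Fin (m + 1)) : Function.Injective (Te hm e) :=
  (Equiv.injective _).comp (Fin.castLE_injective hm)

theorem Te_one (e : Fin (m + 1)) : Te hm e (Fin.succ 0) = e := by
  unfold Te
  rw [Function.comp_apply, Equiv.swap_apply_left]

end cover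

/-- every set of at most `n` indices is contained in the image of an injection -/
theorem cover' {n m : ℕ} (hm : n ≤ m + 1) (A : Finset (Fin (m + 1))) (hA : A.card ≤ n) :
    ∃ T : Fin n → Fin (m + 1), Function.Injective T ∧ ∀ e ∈ A, ∃ i, T i = e := by
  obtain ⟨u, h1, -, h3⟩ := Finset.exists_subsuperset_card_eq (Finset.subset_univ A) hA
    (by rw [Finset.card_univ, Fintype.card_fin]; omega)
  refine ⟨u.orderEmbOfFin h3, (u.orderEmbOfFin h3).injective, fun e he => ?_⟩
  have h4 : e ∈ Set.range (u.orderEmbOfFin h3) := by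
    rw [Finset.range_orderEmbOfFin]
    exact h1 he
  exact h4

variable (hdet : ∀ T : Fin (k + 1 + 1) → Fin (m + 1), Function.Injective T → (cm c T).det ≠ 0)

include hdet

theorem ll_relPrime (hm : k + 1 ≤ m) {e g : Fin (m + 1)} (h : e ≠ g) :
    IsRelPrime (ll c e) (ll c g) := by
  classical
  obtain ⟨T, hT, hc⟩ := cover' (n := k + 1 + 1) (Nat.succ_le_succ hm) {e, g}
    ((Finset.card_le_two).trans (by omega))
  obtain ⟨i, rfl⟩ := hc e (by simp)
  obtain ⟨j, rfl⟩ := hc g (by simp)
  have hij : i ≠ j := fun e => h (by rw [e])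
  rw [(ll_prime (hdet T hT) i).irreducible.isRelPrime_iff_not_dvd]
  exact ll_not_dvd (hdet T hT) hij

theorem ll_ne (hm : k + 1 ≤ m) (e : Fin (m + 1)) : ll c e ≠ 0 := by
  have h := (ll_prime (hdet _ (Te_inj (Nat.succ_le_succ hm) e)) (Fin.succ 0)).ne_zero
  rwa [Te_one] at h

/-- the place on which `L_e` vanishes -/
noncomputable def DE (hm : k + 1 ≤ m) (hlam : lam ≠ 0) (e : Fin (m + 1)) :
    PD lam c a (Te (Nat.succ_le_succ hm) e) where
  η := (exists_etaG hdet (Te_inj (Nat.succ_le_succ hm) e) hlam).choose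
  cc := (exists_etaG hdet (Te_inj (Nat.succ_le_succ hm) e) hlam).choose_spec.1
  eq := (exists_etaG hdet (Te_inj (Nat.succ_le_succ hm) e) hlam).choose_spec.2

theorem const_aux (hm : k + 1 ≤ m) (hlam : lam ≠ 0) (N : ℕ) :
    ∀ P : MvPolynomial (Fin (k + 1 + 1)) K, P.totalDegree ≤ N →
      (∀ e, 0 ≤ ((DE (a := a) hdet hm hlam e).pl (gpol lam c a P)).order) →
      ∃ x, gpol lam c a P = gcst lam c a x := by
  classical
  induction N with
  | zero =>
    intro P hP _
    refine ⟨P.coeff 0, ?_⟩
    have h1 := MvPolynomial.totalDegree_eq_zero_iff_eq_C.1 (Nat.le_zero.1 hP)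
    conv_lhs => rw [h1]
    rfl
  | succ N ih =>
    intro P hP ho
    set Q := MvPolynomial.homogeneousComponent (N + 1) P with hQ
    have hdvd : ∀ e, ll c e ∣ Q := by
      intro e
      set D := DE (a := a) hdet hm hlam e with hD
      have h0 : PowerSeries.constantCoeff (D.GP P (N + 1)) = 0 := by
        by_contra hne
        have h1 := ho e
        rw [D.pl_gpol, D.ev_GP hP, HahnSeries.order_mul (pow_ne_zero _ ti_ne_zero) (PS_ne hne),
          od_coe hne, HahnSeries.order_pow, order_ti] at h1
        simp only [nsmul_eq_mul] at h1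
        push_cast at h1
        omega
      rw [D.cc_GP hP] at h0
      have h2 := dvd_of_res (hdet _ (Te_inj (Nat.succ_le_succ hm) e)) (res_zero h0)
      rwa [Te_one] at h2
    obtain ⟨R, hR⟩ := Finset.prod_dvd_of_isRelPrime (t := (Finset.univ : Finset (Fin (m + 1))))
      (s := fun e => ll c e) (z := Q) (fun e _ g _ h => ll_relPrime hdet hm h)
      (fun e _ => hdvd e)
    set P₁ := P - R * (∏ e, lf c a e - MvPolynomial.C lam⁻¹) with hP₁
    have hval : gpol lam c a P₁ = gpol lam c a P := by
      have h1 := prod_gl lam c a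
      have h2 : gpol lam c a (∏ e, lf c a e - MvPolynomial.C lam⁻¹) = 0 := by
        have h3 : gcst lam c a lam⁻¹ * gcst lam c a lam = 1 := by
          rw [← map_mul, inv_mul_cancel₀ hlam, map_one]
        rw [map_sub, map_prod]
        show _ - gcst lam c a lam⁻¹ = 0
        linear_combination (gcst lam c a lam⁻¹) * h1 -
          (∏ e, gpol lam c a (lf c a e)) * h3
      rw [hP₁, map_sub, map_mul, h2, mul_zero, sub_zero]
    have hdeg : P₁.totalDegree ≤ N := by
      have e1 : P₁ = (P - Q) + (-R * (∏ e, lf c a e - ∏ e, ll c e) +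
          R * MvPolynomial.C lam⁻¹) := by
        rw [hP₁, hR]
        ring
      rw [e1]
      refine (MvPolynomial.totalDegree_add _ _).trans (max_le (deg_sub_hom hP) ?_)
      by_cases hR0 : R = 0
      · rw [hR0]
        simp
      · have hprod : (∏ e, ll c e) ≠ 0 :=
          Finset.prod_ne_zero_iff.2 fun e _ => ll_ne hdet hm e
        have hdQ : Q.totalDegree ≤ N + 1 :=
          (MvPolynomial.homogeneousComponent_isHomogeneous _ _).totalDegree_le
        have hdp : (∏ e, ll c e).totalDegree = m + 1 := by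
          have h3 : (∏ e, ll c e).IsHomogeneous (∑ _e : Fin (m + 1), 1) :=
            MvPolynomial.IsHomogeneous.prod _ _ _ fun e _ => ll_hom e
          rw [h3.totalDegree hprod]
          simp
        have hsum : m + 1 + R.totalDegree ≤ N + 1 := by
          rw [← hdp, ← MvPolynomial.totalDegree_mul_of_isDomain hprod hR0, ← hR]
          exact hdQ
        have hdiff := deg_diff (c := c) (a := a) Finset.univ
        rw [Finset.card_univ, Fintype.card_fin, Nat.add_sub_cancel] at hdiff
        refine (MvPolynomial.totalDegree_add _ _).trans (max_le ?_ ?_)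
        · refine (MvPolynomial.totalDegree_mul _ _).trans ?_
          rw [MvPolynomial.totalDegree_neg]
          omega
        · refine (MvPolynomial.totalDegree_mul _ _).trans ?_
          rw [MvPolynomial.totalDegree_C]
          omega
    obtain ⟨x, hx⟩ := ih P₁ hdeg fun e => by rw [hval]; exact ho e
    exact ⟨x, by rw [← hval]; exact hx⟩

theorem const_of (hm : k + 1 ≤ m) (hlam : lam ≠ 0) {f : GRing lam c a}
    (ho : ∀ e, 0 ≤ ((DE (a := a) hdet hm hlam e).pl f).order) :
    ∃ x, f = gcst lam c a x := by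
  obtain ⟨P, rfl⟩ := Ideal.Quotient.mk_surjective f
  exact const_aux hdet hm hlam P.totalDegree P le_rfl ho

theorem const_unit (hm : k + 1 ≤ m) (hlam : lam ≠ 0) {g : (GRing lam c a)ˣ}
    (ho : ∀ e, 0 ≤ ((DE (a := a) hdet hm hlam e).pl (g : GRing lam c a)).order) :
    ∃ x : Kˣ, g = cu (gcst lam c a) x := by
  have hdom : IsDomain (GRing lam c a) :=
    Pool.Agent.TH826.GA.isDomain_GRing (d := k) hdet hm hlam
  obtain ⟨x, hx⟩ := const_of hdet hm hlam ho
  have hx0 : x ≠ 0 := by
    rintro rfl
    rw [map_zero] at hx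
    exact g.ne_zero hx
  exact ⟨Units.mk0 x hx0, Units.ext hx⟩

theorem ord_gu (hm : k + 1 ≤ m) (hlam : lam ≠ 0) (e g : Fin (m + 1)) :
    ((DE (a := a) hdet hm hlam e).pl (gu lam c a g : GRing lam c a)).order =
      (if g = e then (m : ℤ) + 1 else 0) - 1 := by
  classical
  set D := DE (a := a) hdet hm hlam e with hD
  have hTe := Te_inj (Nat.succ_le_succ hm) e
  have hne : ∀ g, g ≠ e → (D.pl (gu lam c a g : GRing lam c a)).order = -1 := by
    intro g hg
    have h1 : PowerSeries.constantCoeff (D.se g) ≠ 0 := by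
      rw [D.cc_se]
      exact bc_ne hdet hTe (by rw [Te_one]; exact hg)
    rw [D.pl_gu]
    exact (lc_tiPS h1).1
  by_cases h : g = e
  · subst h
    have h1 : cu (gcst lam c a) (Units.mk0 lam hlam) * ∏ e, gu lam c a e = 1 := by
      ext
      rw [Units.val_mul, Units.coe_prod, coe_cu, Units.val_mk0, Units.val_one]
      exact prod_gl lam c a
    have h2 := ord_mul D.pl (cu (gcst lam c a) (Units.mk0 lam hlam)) (∏ e, gu lam c a e)
    rw [h1, ord_prod, Units.val_one, map_one, HahnSeries.order_one,
      ← Finset.add_sum_erase _ _ (Finset.mem_univ g),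
      Finset.sum_congr rfl fun e he => hne e (Finset.ne_of_mem_erase he), Finset.sum_const,
      Finset.card_erase_of_mem (Finset.mem_univ _), Finset.card_univ, Fintype.card_fin] at h2
    have h3 : (D.pl (cu (gcst lam c a) (Units.mk0 lam hlam) : GRing lam c a)).order = 0 := by
      rw [coe_cu, D.pl_gcst, CK_apply, HahnSeries.order_C]
    rw [h3] at h2
    simp only [Nat.add_sub_cancel, nsmul_eq_mul] at h2
    rw [if_pos rfl]
    linarith
  · rw [if_neg h, hne g h]
    rfl

/-- The units of the coordinate ring, up to finite index. -/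
theorem units_G (hm : k + 1 ≤ m) (hlam : lam ≠ 0) (f : (GRing lam c a)ˣ) :
    ∃ (n : Fin (m + 1) → ℤ) (x : Kˣ),
      f ^ (m + 1) = cu (gcst lam c a) x * ∏ e, gu lam c a e ^ n e := by
  set D := fun e => DE (a := a) hdet hm hlam e with hD
  set o : Fin (m + 1) → ℤ := fun e => ((D e).pl (f : GRing lam c a)).order with ho
  set g : (GRing lam c a)ˣ := f ^ (m + 1) * (∏ e, gu lam c a e ^ o e)⁻¹ with hg
  have hord : ∀ e, ((D e).pl (g : GRing lam c a)).order = ∑ e, o e := by
    intro e
    rw [hg, ord_mul, ord_inv, ord_prod, ord_pow]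
    have h1 : ∀ g, ((D e).pl ((gu lam c a g ^ o g : (GRing lam c a)ˣ) :
        GRing lam c a)).order = (if g = e then ((m : ℤ) + 1) * o e else 0) - o g := by
      intro g
      rw [ord_zpow, ord_gu hdet hm hlam]
      by_cases h : g = e
      · subst h
        rw [if_pos rfl, if_pos rfl]
        ring
      · rw [if_neg h, if_neg h]
        ring
    simp only [h1]
    rw [Finset.sum_sub_distrib, Finset.sum_ite_eq' Finset.univ e, if_pos (Finset.mem_univ e)]
    push_cast
    show ((m : ℤ) + 1) * o e + -(((m : ℤ) + 1) * o e - ∑ e, o e) = _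
    ring
  have hfin : ∃ x : Kˣ, g = cu (gcst lam c a) x := by
    rcases le_total 0 (∑ e, o e) with hS | hS
    · exact const_unit hdet hm hlam fun e => by
        have h1 := hord e
        simp only [hD] at h1
        rw [h1]
        exact hS
    · obtain ⟨x, hx⟩ := const_unit hdet hm hlam (g := g⁻¹) fun e => by
        have h1 := hord e
        simp only [hD] at h1
        rw [ord_inv, h1]
        omega
      exact ⟨x⁻¹, by rw [map_inv, ← hx, inv_inv]⟩
  obtain ⟨x, hx⟩ := hfin
  exact ⟨o, x, by rw [← hx, hg, inv_mul_cancel_right]⟩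

end Pool.Agent.X232.CG
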