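import Pool.Agent.X232.CG.Lead
set_option autoImplicit false

/-!
A form which vanishes at the generic point of a hyperplane at infinity is divisible by the linear
form of this hyperplane.
-/

namespace Pool.Agent.X232.CG

open Pool.Agent.TH826.MK

open Pool.Agent.X232.CU (ti ti_ne_zero order_ti od_coe)

open Pool.Agent.X232.CF.E (PS PS_C ti_X PS_ne)

open Pool.Agent.TH826.GA (GRing gpol gcst gu coe_gu lf geqn gpol_geqn prod_gl cm al be fwd bwd
  fwd_lf al_T be_T al_ne chg)

variable {K : Type*} [Field K] {k m : ℕ} {c : Fin (m + 1) → Fin (k + 1 + 1) → K}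
  {T : Fin (k + 1 + 1) → Fin (m + 1)}

theorem eval_form (p : Fin (k + 1 + 1) → FF K k) (P : MvPolynomial (Fin (k + 1 + 1)) K) (N : ℕ) :
    (MvPolynomial.homogeneousComponent N P).eval₂ (CK K k)
      (fun j => HahnSeries.C (p j) * ti (FF K k)) =
    ti (FF K k) ^ N * HahnSeries.C ((MvPolynomial.homogeneousComponent N P).eval₂
      (HahnSeries.C : K →+* FF K k) p) := by
  rw [MvPolynomial.homogeneousComponent_apply, MvPolynomial.eval₂_sum, MvPolynomial.eval₂_sum,
    map_sum, Finset.mul_sum]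
  refine Finset.sum_congr rfl fun n hn => ?_
  have hdeg : n.degree = N := (Finset.mem_filter.1 hn).2
  rw [MvPolynomial.eval₂_monomial, MvPolynomial.eval₂_monomial,
    Finsupp.prod_fintype _ _ fun i => pow_zero _, Finsupp.prod_fintype _ _ fun i => pow_zero _,
    map_mul, map_prod]
  simp only [mul_pow]
  rw [Finset.prod_mul_distrib, Finset.prod_pow_eq_pow_sum, ← Finsupp.degree_eq_sum, hdeg,
    CK_apply]
  simp only [map_pow]
  ring

/-- restriction of polynomials to the hyperplane `y_1 = 0` -/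
noncomputable def resP (c : Fin (m + 1) → Fin (k + 1 + 1) → K)
    (T : Fin (k + 1 + 1) → Fin (m + 1)) :
    MvPolynomial (Fin (k + 1 + 1)) K →+* MvPolynomial (Fin (k + 1)) K :=
  MvPolynomial.eval₂Hom MvPolynomial.C fun j => MvPolynomial.C ((cm c T)⁻¹ j 0) *
    MvPolynomial.X 0 + ∑ i : Fin k, MvPolynomial.C ((cm c T)⁻¹ j i.succ.succ) *
      MvPolynomial.X i.succ

theorem yz_zero : yz K k 0 = ti (FF K k) := by
  unfold ti yz ex
  rw [Fin.cons_zero]
  rfl

theorem yz_succ (i : Fin k) : yz K k i.succ = HahnSeries.C (tj K i) * ti (FF K k) := by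
  unfold ti yz ex tj
  rw [HahnSeries.C_apply, HahnSeries.single_mul_single, zero_add, mul_one, Fin.cons_succ]

theorem pt_eq (j : Fin (k + 1 + 1)) : pt c T j = HahnSeries.C ((cm c T)⁻¹ j 0) +
    ∑ i : Fin k, HahnSeries.C ((cm c T)⁻¹ j i.succ.succ) * tj K i := by
  have h0 : wp K k 0 = 1 := rfl
  have h1 : wp K k (Fin.succ 0) = 0 := rfl
  have h2 : ∀ i : Fin k, wp K k i.succ.succ = tj K i := fun i => rfl
  unfold pt
  rw [Fin.sum_univ_succ, Fin.sum_univ_succ, h0, h1, mul_one, mul_zero, zero_add]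
  simp only [h2]

theorem pt_yz (j : Fin (k + 1 + 1)) : (HahnSeries.C (pt c T j) : HahnSeries ℤ (FF K k)) *
    ti (FF K k) = CK K k ((cm c T)⁻¹ j 0) * yz K k 0 +
      ∑ i : Fin k, CK K k ((cm c T)⁻¹ j i.succ.succ) * yz K k i.succ := by
  have e1 : (HahnSeries.C (pt c T j) : HahnSeries ℤ (FF K k)) =
      CK K k ((cm c T)⁻¹ j 0) + ∑ i : Fin k, CK K k ((cm c T)⁻¹ j i.succ.succ) *
        HahnSeries.C (tj K i) := by
    rw [pt_eq, map_add, map_sum]
    simp only [map_mul]
    rfl
  rw [e1, add_mul, yz_zero, Finset.sum_mul]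
  congr 1
  refine Finset.sum_congr rfl fun i _ => ?_
  rw [yz_succ, mul_assoc]

theorem eval_res (Q : MvPolynomial (Fin (k + 1 + 1)) K) :
    (resP c T Q).eval₂ (CK K k) (yz K k) =
      Q.eval₂ (CK K k) fun j => HahnSeries.C (pt c T j) * ti (FF K k) := by
  have h : (MvPolynomial.eval₂Hom (CK K k) (yz K k)).comp (resP c T) =
      MvPolynomial.eval₂Hom (CK K k) fun j => HahnSeries.C (pt c T j) * ti (FF K k) := by
    refine MvPolynomial.ringHom_ext (fun x => ?_) fun j => ?_
    · unfold resP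
      rw [RingHom.comp_apply, MvPolynomial.eval₂Hom_C, MvPolynomial.eval₂Hom_C,
        MvPolynomial.eval₂Hom_C]
    · unfold resP
      rw [RingHom.comp_apply, MvPolynomial.eval₂Hom_X', MvPolynomial.eval₂Hom_X', pt_yz, map_add,
        map_sum]
      simp only [map_mul, MvPolynomial.eval₂Hom_C, MvPolynomial.eval₂Hom_X']
  exact RingHom.congr_fun h Q

theorem res_zero {P : MvPolynomial (Fin (k + 1 + 1)) K} {N : ℕ}
    (h : (MvPolynomial.homogeneousComponent N P).eval₂ (HahnSeries.C : K →+* FF K k)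
      (pt c T) = 0) : resP c T (MvPolynomial.homogeneousComponent N P) = 0 := by
  by_contra hne
  apply yz_inj hne
  rw [eval_res, eval_form, h, map_zero, mul_zero]

/-- the linear part of `L_e` -/
noncomputable abbrev ll (c : Fin (m + 1) → Fin (k + 1 + 1) → K) (e : Fin (m + 1)) :
    MvPolynomial (Fin (k + 1 + 1)) K := lf c 0 e

theorem X_ll (hT : (cm c T).det ≠ 0) (j : Fin (k + 1 + 1)) :
    (MvPolynomial.X j : MvPolynomial (Fin (k + 1 + 1)) K) =
      ∑ i, MvPolynomial.C ((cm c T)⁻¹ j i) * ll c (T i) := by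
  have h := (chg c 0 T hT).symm_apply_apply (MvPolynomial.X j)
  have h1 : chg c 0 T hT (MvPolynomial.X j) = ∑ i, MvPolynomial.C ((cm c T)⁻¹ j i) *
    (MvPolynomial.X i + MvPolynomial.C ((0 : Fin (m + 1) → K) (T i))) :=
    MvPolynomial.aeval_X _ _
  have h2 : ∀ p, (chg c 0 T hT).symm p = bwd c 0 T p := fun p => rfl
  have h3 : ∀ i, bwd c 0 T (MvPolynomial.X i) = lf c 0 (T i) := fun i =>
    MvPolynomial.aeval_X _ _
  have h4 : ∀ x : K, bwd c 0 T (MvPolynomial.C x) = MvPolynomial.C x := fun x =>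
    MvPolynomial.algHom_C _ x
  rw [h1, h2, map_sum] at h
  rw [← h]
  refine Finset.sum_congr rfl fun i _ => ?_
  rw [map_mul, map_add, h3, h4, h4, Pi.zero_apply, map_zero, add_zero]

/-- polynomials on the hyperplane as polynomials -/
noncomputable def bkP (c : Fin (m + 1) → Fin (k + 1 + 1) → K)
    (T : Fin (k + 1 + 1) → Fin (m + 1)) :
    MvPolynomial (Fin (k + 1)) K →+* MvPolynomial (Fin (k + 1 + 1)) K :=
  MvPolynomial.eval₂Hom MvPolynomial.C
    (Fin.cons (ll c (T 0)) fun j : Fin k => ll c (T j.succ.succ))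

theorem dvd_of_res (hT : (cm c T).det ≠ 0) {Q : MvPolynomial (Fin (k + 1 + 1)) K}
    (h : resP c T Q = 0) : ll c (T (Fin.succ 0)) ∣ Q := by
  set I : Ideal (MvPolynomial (Fin (k + 1 + 1)) K) := Ideal.span {ll c (T (Fin.succ 0))} with hI
  have h1 : (Ideal.Quotient.mk I).comp ((bkP c T).comp (resP c T)) = Ideal.Quotient.mk I := by
    refine MvPolynomial.ringHom_ext (fun x => ?_) fun j => ?_
    · unfold resP bkP
      rw [RingHom.comp_apply, RingHom.comp_apply, MvPolynomial.eval₂Hom_C,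
        MvPolynomial.eval₂Hom_C]
    · have e1 : bkP c T (resP c T (MvPolynomial.X j)) =
          MvPolynomial.C ((cm c T)⁻¹ j 0) * ll c (T 0) +
            ∑ i : Fin k, MvPolynomial.C ((cm c T)⁻¹ j i.succ.succ) * ll c (T i.succ.succ) := by
        unfold resP bkP
        rw [MvPolynomial.eval₂Hom_X', map_add, map_sum]
        simp only [map_mul, MvPolynomial.eval₂Hom_C, MvPolynomial.eval₂Hom_X', Fin.cons_zero,
          Fin.cons_succ]
      have e2 := X_ll hT j
      rw [Fin.sum_univ_succ, Fin.sum_univ_succ] at e2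
      rw [RingHom.comp_apply, RingHom.comp_apply, e1, eq_comm, ← sub_eq_zero, ← map_sub,
        Ideal.Quotient.eq_zero_iff_mem, hI, Ideal.mem_span_singleton]
      refine ⟨MvPolynomial.C ((cm c T)⁻¹ j (Fin.succ 0)), ?_⟩
      linear_combination e2
  have h2 := RingHom.congr_fun h1 Q
  rw [RingHom.comp_apply, RingHom.comp_apply, h, map_zero, map_zero] at h2
  exact Ideal.mem_span_singleton.1 (Ideal.Quotient.eq_zero_iff_mem.1 h2.symm)

theorem ll_prime (hT : (cm c T).det ≠ 0) (i : Fin (k + 1 + 1)) : Prime (ll c (T i)) := by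
  have h1 : chg c 0 T hT (ll c (T i)) = MvPolynomial.X i := by
    have h2 : chg c 0 T hT (lf c 0 (T i)) = _ := fwd_lf T (T i)
    rw [h2, be_T T hT]
    simp only [al_T T hT]
    rw [Finset.sum_eq_single i]
    · simp
    · intro l _ hl
      rw [if_neg (fun h => hl h.symm)]
      simp
    · intro h
      exact absurd (Finset.mem_univ i) h
  rw [← MulEquiv.prime_iff (chg c 0 T hT)]
  show Prime (chg c 0 T hT (ll c (T i)))
  rw [h1]
  exact MvPolynomial.X_prime

theorem ll_not_dvd (hT : (cm c T).det ≠ 0) {i j : Fin (k + 1 + 1)} (hij : i ≠ j) :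
    ¬ ll c (T i) ∣ ll c (T j) := by
  have h1 : ∀ i, chg c 0 T hT (ll c (T i)) = MvPolynomial.X i := by
    intro i
    have h2 : chg c 0 T hT (lf c 0 (T i)) = _ := fwd_lf T (T i)
    rw [h2, be_T T hT]
    simp only [al_T T hT]
    rw [Finset.sum_eq_single i]
    · simp
    · intro l _ hl
      rw [if_neg (fun h => hl h.symm)]
      simp
    · intro h
      exact absurd (Finset.mem_univ i) h
  intro h
  have h2 := map_dvd (chg c 0 T hT) h
  rw [h1, h1, MvPolynomial.X_dvd_X] at h2
  exact hij h2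

end Pool.Agent.X232.CG
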