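import Pool.Agent.X232.CG.Good
set_option autoImplicit false

/-!
The field of generalized power series in `k` variables.
-/

namespace Pool.Agent.X232.CG

open Pool.Agent.TH826.MK

open Pool.Agent.X232.CU (s1 s1_mul s1_one)

/-- the exponents -/
abbrev GG' (k : ℕ) : Type := Lex (Fin k → ℤ)

/-- the field of series in `t_1, ..., t_k` -/
abbrev FF (K : Type*) [Field K] (k : ℕ) : Type _ := HahnSeries (GG' k) K

variable {K : Type*} [Field K] {k : ℕ}

noncomputable example : Field (FF K k) := inferInstance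

/-- the variable `t_j` -/
noncomputable def tj (K : Type*) [Field K] {k : ℕ} (j : Fin k) : FF K k :=
  HahnSeries.single (toLex (Pi.single j 1)) 1

theorem tj_ne (j : Fin k) : tj K j ≠ 0 := by
  unfold tj
  rw [Ne, HahnSeries.single_eq_zero_iff]
  exact one_ne_zero

theorem pos_single (j : Fin k) : (0 : GG' k) < toLex (Pi.single j (1 : ℤ)) := by
  refine ⟨j, fun i hi => ?_, ?_⟩
  · show (0 : ℤ) = (Pi.single j (1 : ℤ) : Fin k → ℤ) i
    rw [Pi.single_eq_of_ne hi.ne]
  · show (0 : ℤ) < (Pi.single j (1 : ℤ) : Fin k → ℤ) j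
    rw [Pi.single_eq_same]
    exact one_pos

theorem top_tj (j : Fin k) (c : K) : 0 < (HahnSeries.C c * tj K j : FF K k).orderTop := by
  by_cases hc : c = 0
  · subst hc
    rw [map_zero, zero_mul, HahnSeries.orderTop_zero]
    exact WithTop.top_pos
  · unfold tj
    rw [HahnSeries.C_apply, HahnSeries.single_mul_single, zero_add, mul_one,
      HahnSeries.orderTop_single hc]
    exact_mod_cast pos_single j

theorem top_sum (s : Finset (Fin k)) (a : Fin k → K) :
    0 < (∑ j ∈ s, HahnSeries.C (a j) * tj K j : FF K k).orderTop := by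
  classical
  induction s using Finset.induction_on with
  | empty =>
    rw [Finset.sum_empty, HahnSeries.orderTop_zero]
    exact WithTop.top_pos
  | insert j s hj ih =>
    rw [Finset.sum_insert hj]
    exact lt_of_lt_of_le (lt_min (top_tj j (a j)) ih) HahnSeries.min_orderTop_le_orderTop_add

/-- a linear form in the variables -/
noncomputable def lin (c₀ : K) (a : Fin k → K) : FF K k :=
  HahnSeries.C c₀ + ∑ j, HahnSeries.C (a j) * tj K j

theorem lin_facts {c₀ : K} (hc : c₀ ≠ 0) (a : Fin k → K) :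
    lin c₀ a ≠ 0 ∧ (lin c₀ a).order = 0 ∧ (lin c₀ a).leadingCoeff = c₀ := by
  have hlt : (HahnSeries.C c₀ : FF K k).orderTop <
      (∑ j, HahnSeries.C (a j) * tj K j : FF K k).orderTop := by
    rw [HahnSeries.C_apply, HahnSeries.orderTop_single hc]
    exact top_sum _ _
  have h1 := HahnSeries.orderTop_add_eq_left hlt
  have h2 := HahnSeries.leadingCoeff_add_eq_left hlt
  have hne : lin c₀ a ≠ 0 := by
    intro h
    have h3 : (lin c₀ a).orderTop = (HahnSeries.C c₀ : FF K k).orderTop := h1
    rw [h, HahnSeries.orderTop_zero, HahnSeries.C_apply, HahnSeries.orderTop_single hc] at h3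
    exact absurd h3 (by simp)
  refine ⟨hne, ?_, ?_⟩
  · have h3 := HahnSeries.order_eq_orderTop_of_ne_zero hne
    have h4 : (lin c₀ a).orderTop = (HahnSeries.C c₀ : FF K k).orderTop := h1
    rw [h4, HahnSeries.C_apply, HahnSeries.orderTop_single hc] at h3
    exact_mod_cast h3
  · have h4 : (lin c₀ a).leadingCoeff = (HahnSeries.C c₀ : FF K k).leadingCoeff := h2
    rw [h4, HahnSeries.C_apply, HahnSeries.leadingCoeff_of_single]

/-- the exponents as rational vectors -/
noncomputable def nuL (k : ℕ) : GG' k →+ (Fin k → ℚ) where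
  toFun x j := ((ofLex x j : ℤ) : ℚ)
  map_zero' := by
    funext j
    exact Int.cast_zero
  map_add' x y := by
    funext j
    exact Int.cast_add _ _

variable (φ : KQ K 1 →ₗ[ℚ] ℚ)

/-- the arrangement of the coordinates -/
noncomputable def arr (k : ℕ) : (ℚ × ((Fin k → ℚ) × ℚ)) →ₗ[ℚ] (Fin (k + 1 + 1) → ℚ) where
  toFun x := Fin.cons x.2.2 (Fin.cons x.1 x.2.1 : Fin (k + 1) → ℚ)
  map_add' x y := by
    funext i
    refine Fin.cases ?_ (fun i => ?_) i
    · rfl
    · refine Fin.cases ?_ (fun i => ?_) i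
      · rfl
      · rfl
  map_smul' c x := by
    funext i
    refine Fin.cases ?_ (fun i => ?_) i
    · rfl
    · refine Fin.cases ?_ (fun i => ?_) i
      · rfl
      · rfl

/-- The coordinates of a unit: the value of `φ` at the last leading coefficient, and the orders. -/
noncomputable def RR (f : (HahnSeries ℤ (FF K k))ˣ) : Fin (k + 1 + 1) → ℚ :=
  arr k (hR (Int.castAddHom ℚ) (hR (nuL k) fun c => φ (s1 K c)) f)

theorem good_RR : GoodR (L := HahnSeries ℤ (FF K k)) (RR (k := k) φ) :=
  (good_hahn (good_hahn (good_rat φ) (nuL k)) (Int.castAddHom ℚ)).comp (arr k)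

/-- the coordinates of a unit with known leading coefficients -/
theorem RR_of (f : (HahnSeries ℤ (FF K k))ˣ) {o : ℤ} {x : GG' k} {c : Kˣ}
    (h1 : (f : HahnSeries ℤ (FF K k)).order = o)
    (h2 : (f : HahnSeries ℤ (FF K k)).leadingCoeff.order = x)
    (h3 : (f : HahnSeries ℤ (FF K k)).leadingCoeff.leadingCoeff = c) :
    RR φ f = Fin.cons (φ (s1 K c)) (Fin.cons (o : ℚ) (nuL k x) : Fin (k + 1) → ℚ) := by
  have e : lcu (lcu f) = c := Units.ext h3
  have e2 : ((lcu f : (FF K k)ˣ) : FF K k).order = x := h2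
  unfold RR hR
  rw [h1, e, e2]
  rfl

end Pool.Agent.X232.CG
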