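import Pool.Agent.X232.CU.Tame
import Pool.Agent.X232.CF.Defs
set_option autoImplicit false

/-!
Determinants of orders and leading coefficients as functionals on rational Milnor K-groups.
-/

namespace Pool.Agent.X232.CG

open Pool.Agent.TH826.MK

open Pool.Agent.X232.CF (UnramifiedOver)

open Pool.Agent.X232.CU (s1 s1_mul s1_one vH vH_apply)

open scoped WithZero

section good

variable {L : Type*} [Field L] {M : Type*} [AddCommGroup M] [Module ℚ M]

/-- A homomorphism such that the images of `x` and `1 - x` are linearly dependent. -/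
structure GoodR (R : Lˣ → M) : Prop where
  mul : ∀ x y, R (x * y) = R x + R y
  st : ∀ x y : Lˣ, (x : L) + y = 1 → ∃ p q : ℚ, (p ≠ 0 ∨ q ≠ 0) ∧ p • R x + q • R y = 0

variable {R : Lˣ → M} (h : GoodR R)

include h in
theorem GoodR.one : R 1 = 0 := by
  have h1 := h.mul 1 1
  rw [mul_one] at h1
  simpa using h1

include h in
theorem GoodR.neg_one : R (-1) = 0 := by
  have h1 := h.mul (-1) (-1)
  have h2 : (-1 : Lˣ) * -1 = 1 := by simp
  rw [h2, h.one] at h1
  have h3 : (2 : ℚ) • R (-1) = 0 := by rw [two_smul]; exact h1.symm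
  exact (smul_eq_zero.1 h3).resolve_left two_ne_zero

include h in
theorem GoodR.neg (x : Lˣ) : R (-x) = R x := by
  rw [← neg_one_mul, h.mul, h.neg_one, zero_add]

include h in
theorem GoodR.comp {M' : Type*} [AddCommGroup M'] [Module ℚ M'] (T : M →ₗ[ℚ] M') :
    GoodR fun x => T (R x) := by
  refine ⟨fun x y => by rw [h.mul, map_add], fun x y hxy => ?_⟩
  obtain ⟨p, q, hpq, h1⟩ := h.st x y hxy
  refine ⟨p, q, hpq, ?_⟩
  rw [← map_smul, ← map_smul, ← map_add, h1, map_zero]

end good

section func

variable {L : Type*} [Field L] {n : ℕ} {R : Lˣ → Fin n → ℚ}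

/-- the determinant of the images of the entries -/
noncomputable def DR (h : GoodR R) : KQ L n →ₗ[ℚ] ℚ :=
  KQ.lift (fun a => (Matrix.of fun i => R (a i)).det) (by
    intro a i x y
    have e : ∀ z : Lˣ, (Matrix.of fun j => R (Function.update a i z j)) =
        (Matrix.of fun j => R (a j)).updateRow i (R z) := by
      intro z
      ext j l
      by_cases hj : j = i
      · subst hj; simp
      · simp [Matrix.updateRow_ne hj, Function.update_of_ne hj]
    rw [e, e, e, h.mul, Matrix.det_updateRow_add]) (by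
    rintro a ⟨i, j, hij, hs⟩
    obtain ⟨p, q, hpq, h1⟩ := h.st _ _ hs
    refine (Matrix.detRowAlternating (R := ℚ) (n := Fin n)).map_linearDependent
      (fun i => R (a i)) ?_
    intro hli
    have hinj : Function.Injective (![i, j] : Fin 2 → Fin n) := by
      intro x y hxy
      fin_cases x <;> fin_cases y
      · rfl
      · exact absurd hxy hij.ne
      · exact absurd hxy hij.ne'
      · rfl
    have h2 := hli.comp ![i, j] hinj
    have h3 : LinearIndependent ℚ ![R (a i), R (a j)] := by
      have e : ((fun i => R (a i)) ∘ ![i, j]) = ![R (a i), R (a j)] := by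
        funext x
        fin_cases x <;> rfl
      rw [← e]
      exact h2
    have h4 := LinearIndependent.pair_iff.1 h3 p q h1
    rcases hpq with hp | hq
    · exact hp h4.1
    · exact hq h4.2)

theorem DR_symb (h : GoodR R) (a : Fin n → Lˣ) :
    DR h (symb a) = (Matrix.of fun i => R (a i)).det := by
  unfold DR
  rw [KQ.lift_symb]

end func

section hahn

variable {Γ : Type*} [AddCommGroup Γ] [LinearOrder Γ] [IsOrderedAddMonoid Γ] {F : Type*} [Field F]

/-- the leading coefficient of a unit -/
noncomputable def lcu (f : (HahnSeries Γ F)ˣ) : Fˣ :=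
  Units.mk0 (f : HahnSeries Γ F).leadingCoeff (HahnSeries.leadingCoeff_ne_zero.2 f.ne_zero)

theorem lcu_mul (f g : (HahnSeries Γ F)ˣ) : lcu (f * g) = lcu f * lcu g := by
  ext
  unfold lcu
  rw [Units.val_mk0, Units.val_mul, HahnSeries.leadingCoeff_mul, Units.val_mul, Units.val_mk0,
    Units.val_mk0]

theorem pos_case {f g : HahnSeries Γ F} (hf : f ≠ 0) (h : f + g = 1) (hp : 0 < f.order) :
    g.order = 0 ∧ g.leadingCoeff = 1 := by
  have e : g = 1 + -f := by rw [← h]; ring
  have hlt : (1 : HahnSeries Γ F).orderTop < (-f).orderTop := by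
    rw [HahnSeries.orderTop_neg, HahnSeries.orderTop_one]
    have := (HahnSeries.order_eq_orderTop_of_ne_zero hf)
    rw [← this]
    exact_mod_cast hp
  constructor
  · have h1 := HahnSeries.orderTop_add_eq_left hlt
    rw [← e, HahnSeries.orderTop_one] at h1
    have hg : g ≠ 0 := by
      rintro rfl
      rw [HahnSeries.orderTop_zero] at h1
      exact absurd h1 (by simp)
    have h2 := HahnSeries.order_eq_orderTop_of_ne_zero hg
    rw [h1] at h2
    exact_mod_cast h2
  · have h1 := HahnSeries.leadingCoeff_add_eq_left hlt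
    rw [← e, HahnSeries.leadingCoeff_one] at h1
    exact h1

theorem neg_case {f g : HahnSeries Γ F} (hf : f ≠ 0) (h : f + g = 1) (hp : f.order < 0) :
    g.order = f.order ∧ g.leadingCoeff = -f.leadingCoeff := by
  have e : g = -f + 1 := by rw [← h]; ring
  have hlt : (-f).orderTop < (1 : HahnSeries Γ F).orderTop := by
    rw [HahnSeries.orderTop_neg, HahnSeries.orderTop_one]
    have := (HahnSeries.order_eq_orderTop_of_ne_zero hf)
    rw [← this]
    exact_mod_cast hp
  constructor
  · have h1 := HahnSeries.orderTop_add_eq_left hlt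
    rw [← e, HahnSeries.orderTop_neg] at h1
    have hg : g ≠ 0 := by
      rintro rfl
      rw [HahnSeries.orderTop_zero] at h1
      exact hf (HahnSeries.orderTop_eq_top.1 h1.symm)
    have h2 := HahnSeries.order_eq_orderTop_of_ne_zero hg
    have h3 := HahnSeries.order_eq_orderTop_of_ne_zero hf
    rw [h1, ← h3] at h2
    exact_mod_cast h2
  · have h1 := HahnSeries.leadingCoeff_add_eq_left hlt
    rw [← e, HahnSeries.leadingCoeff_neg] at h1
    exact h1

variable {M N : Type*} [AddCommGroup M] [Module ℚ M] [AddCommGroup N] [Module ℚ N]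

/-- order and leading coefficient -/
noncomputable def hR (ν : Γ →+ N) (RF : Fˣ → M) (f : (HahnSeries Γ F)ˣ) : N × M :=
  (ν (f : HahnSeries Γ F).order, RF (lcu f))

theorem good_hahn {RF : Fˣ → M} (hF : GoodR RF) (ν : Γ →+ N) : GoodR (hR (Γ := Γ) ν RF) := by
  refine ⟨fun x y => ?_, fun f g h => ?_⟩
  · unfold hR
    rw [Units.val_mul, HahnSeries.order_mul x.ne_zero y.ne_zero, map_add, lcu_mul, hF.mul]
    rfl
  · unfold hR
    rcases lt_trichotomy (f : HahnSeries Γ F).order 0 with hf | hf | hf
    · obtain ⟨h1, h2⟩ := neg_case f.ne_zero h hf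
      refine ⟨1, -1, Or.inl one_ne_zero, ?_⟩
      have e2 : lcu g = -lcu f := by
        ext
        rw [Units.val_neg]
        exact h2
      rw [h1, e2, hF.neg, one_smul, neg_one_smul, add_neg_cancel]
    · rcases lt_trichotomy (g : HahnSeries Γ F).order 0 with hg | hg | hg
      · obtain ⟨h1, h2⟩ := neg_case g.ne_zero (by rw [add_comm]; exact h) hg
        rw [hf] at h1
        rw [← h1] at hg
        exact absurd hg (lt_irrefl _)
      · have h3 : ((lcu f : Fˣ) : F) + lcu g = 1 := by
          have h4 := congrArg (fun s : HahnSeries Γ F => s.coeff 0) h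
          simp only [HahnSeries.coeff_add, HahnSeries.coeff_one, if_true] at h4
          unfold lcu
          rw [Units.val_mk0, Units.val_mk0, HahnSeries.leadingCoeff_eq, HahnSeries.leadingCoeff_eq,
            hf, hg]
          exact h4
        obtain ⟨p, q, hpq, h5⟩ := hF.st _ _ h3
        refine ⟨p, q, hpq, ?_⟩
        rw [hf, hg, map_zero]
        ext
        · simp
        · exact h5
      · obtain ⟨h1, h2⟩ := pos_case g.ne_zero (by rw [add_comm]; exact h) hg
        refine ⟨1, 0, Or.inl one_ne_zero, ?_⟩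
        have e2 : lcu f = 1 := Units.ext h2
        rw [h1, e2, hF.one, map_zero]
        simp
    · obtain ⟨h1, h2⟩ := pos_case f.ne_zero h hf
      refine ⟨0, 1, Or.inr one_ne_zero, ?_⟩
      have e2 : lcu g = 1 := Units.ext h2
      rw [h1, e2, hF.one, map_zero]
      simp

/-- a homomorphism to `ℚ` -/
theorem good_rat {K : Type*} [Field K] (φ : KQ K 1 →ₗ[ℚ] ℚ) : GoodR fun c : Kˣ => φ (s1 K c) := by
  refine ⟨fun x y => by rw [s1_mul, map_add], fun x y _ => ?_⟩
  by_cases hx : φ (s1 K x) = 0
  · exact ⟨1, 0, Or.inl one_ne_zero, by simp [hx]⟩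
  · exact ⟨φ (s1 K y), -φ (s1 K x), Or.inr (neg_ne_zero.2 hx), by
      simp only [smul_eq_mul]
      ring⟩

end hahn

section unr

variable {K L F : Type*} [Field K] [Field L] [Field F] {n : ℕ}

/-- The functional vanishes at the elements which are unramified over `K`. -/
theorem DR_unr {R : (HahnSeries ℤ F)ˣ → Fin n → ℚ} (h : GoodR R) (i₀ : Fin n)
    (hi : ∀ f : (HahnSeries ℤ F)ˣ, (f : HahnSeries ℤ F).order = 0 → R f i₀ = 0)
    (ι : K →+* L) (p : L →+* HahnSeries ℤ F)
    (hp : ∀ c : K, c ≠ 0 → (p (ι c)).order = 0)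
    (hs : ∃ a : L, a ≠ 0 ∧ (p a).order = -1) {z : KQ L n} (hz : z ∈ UnramifiedOver ι n) :
    DR h (KQ.map n p z) = 0 := by
  set v : Valuation L ℤᵐ⁰ := (vH F).comap p with hv
  have hpa : ∀ a : L, a ≠ 0 → v a = WithZero.exp (-(p a).order) := fun a ha =>
    vH_apply ((map_ne_zero p).2 ha)
  have hsurj : Function.Surjective v := by
    obtain ⟨a, ha0, ha⟩ := hs
    intro z
    induction z using WithZero.expRecOn with
    | zero => exact ⟨0, map_zero _⟩
    | exp n =>
      refine ⟨a ^ n, ?_⟩
      rw [map_zpow₀, hpa a ha0, ← WithZero.exp_zsmul, smul_eq_mul, ha]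
      simp
  have hK : ∀ c : K, c ≠ 0 → v (ι c) = 1 := by
    intro c hc
    rw [hpa _ ((map_ne_zero ι).2 hc), hp c hc, neg_zero, WithZero.exp_zero]
  have h1 : z ∈ unitPart v n := by
    unfold UnramifiedOver at hz
    simp only [Submodule.mem_iInf] at hz
    exact hz v hsurj hK
  have h2 : unitPart v n ≤ LinearMap.ker ((DR h).comp (KQ.map n p)) := by
    unfold unitPart
    rw [Submodule.span_le]
    rintro z ⟨a, ha, rfl⟩
    show DR h (KQ.map n p (symb a)) = 0
    rw [KQ.map_symb, DR_symb]
    refine Matrix.det_eq_zero_of_column_eq_zero i₀ fun i => ?_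
    rw [Matrix.of_apply]
    refine hi _ ?_
    have h3 := ha i
    rw [hpa _ (a i).ne_zero, ← WithZero.exp_zero, WithZero.exp_inj] at h3
    show (p (a i : L)).order = 0
    omega
  exact h2 h1

end unr

end Pool.Agent.X232.CG
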