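import Pool.Agent.X232.CU.Root
set_option autoImplicit false

/-!
Hensel's lemma for the equation `λ η ∏_i (B_i η + A_i) = t ^ (n + 1)`.
-/

namespace Pool.Agent.X232.CG

open Polynomial

variable {F : Type*} [Field F] {ι : Type*} (s : Finset ι) (A : ι → PowerSeries F) (B : ι → F)
  (lam : F)

/-- the polynomial -/
noncomputable def hpg : (PowerSeries F)[X] :=
  X ^ (s.card + 1) - C (PowerSeries.C lam) *
    ∏ g ∈ s, (C (A g) * X + C (PowerSeries.C (B g) * PowerSeries.X ^ (s.card + 1)))

theorem monic_hpg : (hpg s A B lam).Monic := by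
  unfold hpg
  have h1 : (C (PowerSeries.C lam) * ∏ g ∈ s,
      (C (A g) * X + C (PowerSeries.C (B g) * PowerSeries.X ^ (s.card + 1))) :
        (PowerSeries F)[X]).natDegree ≤ s.card := by
    refine (natDegree_C_mul_le _ _).trans ?_
    refine (natDegree_prod_le _ _).trans ?_
    refine (Finset.sum_le_sum (g := fun _ => 1) fun g _ => ?_).trans ?_
    · exact natDegree_linear_le
    · rw [Finset.sum_const, smul_eq_mul, mul_one]
  have h2 := natDegree_le_iff_degree_le.1 h1
  refine monic_X_pow_sub (lt_of_le_of_lt h2 ?_)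
  exact_mod_cast Nat.lt_succ_self s.card

theorem hpg_map : (hpg s A B lam).map PowerSeries.constantCoeff =
    X ^ s.card * (X - C (lam * ∏ g ∈ s, PowerSeries.constantCoeff (A g))) := by
  unfold hpg
  rw [Polynomial.map_sub, Polynomial.map_pow, map_X, Polynomial.map_mul, map_C, Polynomial.map_prod]
  have h : ∏ g ∈ s, ((C (A g) * X + C (PowerSeries.C (B g) * PowerSeries.X ^ (s.card + 1)) :
      (PowerSeries F)[X])).map PowerSeries.constantCoeff =
      C (∏ g ∈ s, PowerSeries.constantCoeff (A g)) * X ^ s.card := by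
    have h1 : ∀ g ∈ s, ((C (A g) * X + C (PowerSeries.C (B g) * PowerSeries.X ^ (s.card + 1)) :
        (PowerSeries F)[X])).map PowerSeries.constantCoeff =
        C (PowerSeries.constantCoeff (A g)) * X := by
      intro g _
      rw [Polynomial.map_add, Polynomial.map_mul, map_C, map_X, map_C, map_mul, map_pow,
        PowerSeries.constantCoeff_X, zero_pow (Nat.succ_ne_zero _), mul_zero, map_zero, add_zero]
    rw [Finset.prod_congr rfl h1, Finset.prod_mul_distrib, Finset.prod_const, map_prod]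
  rw [h, PowerSeries.constantCoeff_C, map_mul]
  ring

theorem exists_xig (hlam : lam ≠ 0) (hA : ∀ g ∈ s, PowerSeries.constantCoeff (A g) ≠ 0) :
    ∃ ξ : PowerSeries F, ξ ^ (s.card + 1) = PowerSeries.C lam * ∏ g ∈ s,
      (A g * ξ + PowerSeries.C (B g) * PowerSeries.X ^ (s.card + 1)) ∧
    PowerSeries.constantCoeff ξ ≠ 0 := by
  set κ : F := lam * ∏ g ∈ s, PowerSeries.constantCoeff (A g) with hκ
  have h0 : κ ≠ 0 := mul_ne_zero hlam (Finset.prod_ne_zero_iff.2 hA)
  have hH : HenselianRing (PowerSeries F) (Ideal.span {(PowerSeries.X : PowerSeries F)}) :=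
    inferInstance
  have hev : ∀ p : (PowerSeries F)[X], PowerSeries.constantCoeff
      (p.eval (PowerSeries.C κ)) =
      (p.map PowerSeries.constantCoeff).eval κ := by
    intro p
    have h1 := eval_map_apply (p := p) (PowerSeries.constantCoeff (R := F))
      (PowerSeries.C κ)
    rw [PowerSeries.constantCoeff_C] at h1
    exact h1.symm
  obtain ⟨ξ, h1, h2⟩ := hH.is_henselian (hpg s A B lam) (monic_hpg s A B lam)
    (PowerSeries.C κ) (by
      rw [Ideal.mem_span_singleton, PowerSeries.X_dvd_iff, hev, hpg_map, ← hκ, eval_mul, eval_sub,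
        eval_X, eval_C, sub_self, mul_zero]) (by
      refine IsUnit.map _ ?_
      rw [PowerSeries.isUnit_iff_constantCoeff, isUnit_iff_ne_zero, hev, ← derivative_map, hpg_map]
      simp only [derivative_mul, derivative_sub, derivative_X, derivative_C, sub_zero, mul_one,
        eval_add, eval_mul, eval_sub, eval_X, eval_C, ← hκ, sub_self, mul_zero, zero_add, eval_pow]
      exact pow_ne_zero _ h0)
  refine ⟨ξ, ?_, ?_⟩
  · have h3 : (hpg s A B lam).eval ξ = 0 := h1
    unfold hpg at h3
    rw [eval_sub, eval_pow, eval_X, eval_mul, eval_C, eval_prod, sub_eq_zero] at h3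
    simp only [eval_add, eval_mul, eval_C, eval_X] at h3
    exact h3
  · rw [Ideal.mem_span_singleton, PowerSeries.X_dvd_iff, map_sub, PowerSeries.constantCoeff_C,
      sub_eq_zero] at h2
    rw [h2]
    exact h0

/-- the solution of the equation -/
theorem exists_eta (hlam : lam ≠ 0) (hA : ∀ g ∈ s, PowerSeries.constantCoeff (A g) ≠ 0) :
    ∃ η : PowerSeries F, PowerSeries.constantCoeff η = 0 ∧
      PowerSeries.C lam * (η * ∏ g ∈ s, (PowerSeries.C (B g) * η + A g)) =
        PowerSeries.X ^ (s.card + 1) := by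
  obtain ⟨ξ, h1, h2⟩ := exists_xig s A B lam hlam hA
  have h3 : ξ * ξ⁻¹ = 1 := PowerSeries.mul_inv_cancel ξ h2
  refine ⟨PowerSeries.X ^ (s.card + 1) * ξ⁻¹, ?_, ?_⟩
  · rw [map_mul, map_pow, PowerSeries.constantCoeff_X, zero_pow (Nat.succ_ne_zero _), zero_mul]
  · have h4 : ∀ g ∈ s, PowerSeries.C (B g) * (PowerSeries.X ^ (s.card + 1) * ξ⁻¹) + A g =
        ξ⁻¹ * (A g * ξ + PowerSeries.C (B g) * PowerSeries.X ^ (s.card + 1)) := by
      intro g _
      linear_combination (-A g) * h3
    rw [Finset.prod_congr rfl h4, Finset.prod_mul_distrib, Finset.prod_const]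
    have h5 : PowerSeries.C lam * (PowerSeries.X ^ (s.card + 1) * ξ⁻¹ * (ξ⁻¹ ^ s.card *
        ∏ g ∈ s, (A g * ξ + PowerSeries.C (B g) * PowerSeries.X ^ (s.card + 1)))) =
        PowerSeries.X ^ (s.card + 1) * ξ⁻¹ ^ (s.card + 1) * (PowerSeries.C lam *
        ∏ g ∈ s, (A g * ξ + PowerSeries.C (B g) * PowerSeries.X ^ (s.card + 1))) := by
      ring
    rw [h5, ← h1, mul_assoc, ← mul_pow, mul_comm ξ⁻¹, h3, one_pow, mul_one]

end Pool.Agent.X232.CG
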