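import Pool.Agent.X232.CG.Pl
set_option autoImplicit false

/-!
The places at infinity are embeddings.
-/

namespace Pool.Agent.X232.CG

open Pool.Agent.TH826.MK

open Pool.Agent.X232.CU (ti ti_ne_zero order_ti od_coe)

open Pool.Agent.X232.CF.E (PS PS_C ti_X PS_ne)

open Pool.Agent.TH826.GA (GRing gpol gcst gu coe_gu lf geqn gpol_geqn prod_gl cm al be fwd bwd
  fwd_lf al_T be_T al_ne chg)

section mono

variable {K : Type*} [Field K] {k : ℕ}

/-- the exponents of the coordinates -/
noncomputable def ex (k : ℕ) : Fin (k + 1) → GG' k :=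
  Fin.cons 0 fun j => toLex (Pi.single j (1 : ℤ))

/-- the coordinates -/
noncomputable def yz (K : Type*) [Field K] (k : ℕ) (i : Fin (k + 1)) :
    HahnSeries ℤ (FF K k) := HahnSeries.single (-1) (HahnSeries.single (ex k i) 1)

theorem prod_single {Γ R ι : Type*} [AddCommGroup Γ] [LinearOrder Γ] [IsOrderedAddMonoid Γ]
    [Field R] (s : Finset ι) (x : ι → Γ) (r : ι → R) :
    ∏ i ∈ s, (HahnSeries.single (x i) (r i) : HahnSeries Γ R) =
      HahnSeries.single (∑ i ∈ s, x i) (∏ i ∈ s, r i) := by
  classical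
  induction s using Finset.induction_on with
  | empty => simp
  | insert i s hi ih =>
    rw [Finset.prod_insert hi, Finset.sum_insert hi, Finset.prod_insert hi, ih,
      HahnSeries.single_mul_single]

theorem yz_prod (n : Fin (k + 1) →₀ ℕ) (q : K) :
    CK K k q * ∏ i, yz K k i ^ n i = HahnSeries.single (-(∑ i, (n i : ℤ)))
      (HahnSeries.single (∑ i, n i • ex k i) q) := by
  have h1 : ∀ i, yz K k i ^ n i = HahnSeries.single (-(n i : ℤ))
      (HahnSeries.single (n i • ex k i) 1) := by
    intro i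
    unfold yz
    rw [HahnSeries.single_pow, HahnSeries.single_pow, one_pow]
    congr 1
    simp
  simp only [h1]
  rw [prod_single, prod_single, CK_apply, HahnSeries.C_apply, HahnSeries.C_apply,
    HahnSeries.single_mul_single, HahnSeries.single_mul_single, zero_add, zero_add,
    Finset.prod_const_one, mul_one, Finset.sum_neg_distrib]

theorem ex_sum (n : Fin (k + 1) →₀ ℕ) (j : Fin k) :
    ofLex (∑ i, n i • ex k i) j = (n j.succ : ℤ) := by
  have h1 : ofLex (∑ i, n i • ex k i) j = ∑ i, (ofLex (n i • ex k i)) j := by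
    have h2 : ∀ s : Finset (Fin (k + 1)), ofLex (∑ i ∈ s, n i • ex k i) j =
        ∑ i ∈ s, (ofLex (n i • ex k i)) j := by
      classical
      intro s
      induction s using Finset.induction_on with
      | empty =>
        rw [Finset.sum_empty, Finset.sum_empty]
        rfl
      | insert i s hi ih =>
        rw [Finset.sum_insert hi, Finset.sum_insert hi, ← ih]
        rfl
    exact h2 _
  rw [h1, Fin.sum_univ_succ]
  have h0 : (ofLex (n 0 • ex k 0)) j = 0 := by
    show (n 0 • ofLex (ex k 0)) j = 0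
    have : ofLex (ex k 0) = 0 := rfl
    rw [this, smul_zero]
    rfl
  have hs : ∀ i : Fin k, (ofLex (n i.succ • ex k i.succ)) j =
      if i = j then (n i.succ : ℤ) else 0 := by
    intro i
    show (n i.succ • (Pi.single i (1 : ℤ) : Fin k → ℤ)) j = _
    rw [Pi.smul_apply, Pi.single_apply]
    by_cases h : i = j
    · subst h
      simp
    · rw [if_neg (fun e => h e.symm), if_neg h, smul_zero]
  rw [h0, zero_add]
  simp only [hs]
  rw [Finset.sum_ite_eq' Finset.univ j, if_pos (Finset.mem_univ j)]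

theorem yz_inj {p : MvPolynomial (Fin (k + 1)) K} (hp : p ≠ 0) :
    p.eval₂ (CK K k) (yz K k) ≠ 0 := by
  classical
  obtain ⟨n₀, hn₀⟩ := MvPolynomial.ne_zero_iff.1 hp
  intro h
  rw [MvPolynomial.eval₂_eq'] at h
  simp only [yz_prod] at h
  have h1 := congrArg (fun s : HahnSeries ℤ (FF K k) =>
    (s.coeff (-(∑ i, (n₀ i : ℤ)))).coeff (∑ i, n₀ i • ex k i)) h
  simp only [HahnSeries.coeff_sum, HahnSeries.coeff_zero] at h1
  rw [Finset.sum_eq_single n₀] at h1
  · rw [HahnSeries.coeff_single_same, HahnSeries.coeff_single_same] at h1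
    exact hn₀ h1
  · intro n _ hn
    by_cases hdeg : (-(∑ i, (n₀ i : ℤ))) = -(∑ i, (n i : ℤ))
    · rw [hdeg, HahnSeries.coeff_single_same, HahnSeries.coeff_single_of_ne]
      intro hex
      apply hn
      have h2 : ∀ j : Fin k, n j.succ = n₀ j.succ := by
        intro j
        have h3 := ex_sum n j
        have h4 := ex_sum n₀ j
        rw [hex, h3] at h4
        exact_mod_cast h4
      have h5 : ∑ i, (n₀ i : ℤ) = ∑ i, (n i : ℤ) := neg_injective hdeg
      rw [Fin.sum_univ_succ, Fin.sum_univ_succ] at h5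
      simp only [h2] at h5
      have h6 : (n₀ 0 : ℤ) = n 0 := by linarith
      ext i
      refine Fin.cases ?_ (fun i => ?_) i
      · exact_mod_cast h6.symm
      · exact h2 i
    · rw [HahnSeries.coeff_single_of_ne hdeg, HahnSeries.coeff_zero]
  · intro hn
    rw [MvPolynomial.notMem_support_iff.1 hn]
    simp

end mono

section alg

variable {K : Type*} [Field K] {k m : ℕ} {c : Fin (m + 1) → Fin (k + 1 + 1) → K}
  {a : Fin (m + 1) → K} (lam : K) (T : Fin (k + 1 + 1) → Fin (m + 1))

theorem gpol_X (hT : (cm c T).det ≠ 0) (j : Fin (k + 1 + 1)) :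
    gpol lam c a (MvPolynomial.X j) = ∑ i, gcst lam c a ((cm c T)⁻¹ j i) *
      (gpol lam c a (lf c a (T i)) + gcst lam c a (a (T i))) := by
  have h := (chg c a T hT).symm_apply_apply (MvPolynomial.X j)
  have h1 : chg c a T hT (MvPolynomial.X j) = ∑ i, MvPolynomial.C ((cm c T)⁻¹ j i) *
    (MvPolynomial.X i + MvPolynomial.C (a (T i))) := MvPolynomial.aeval_X _ _
  have h2 : ∀ p, (chg c a T hT).symm p = bwd c a T p := fun p => rfl
  have h3 : ∀ i, bwd c a T (MvPolynomial.X i) = lf c a (T i) := fun i =>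
    MvPolynomial.aeval_X _ _
  have h4 : ∀ x : K, bwd c a T (MvPolynomial.C x) = MvPolynomial.C x := fun x =>
    MvPolynomial.algHom_C _ x
  rw [h1, h2, map_sum] at h
  rw [← h, map_sum]
  refine Finset.sum_congr rfl fun i _ => ?_
  rw [map_mul, map_add, h3, h4, h4, map_mul, map_add]
  rfl

theorem gpol_lf (hT : (cm c T).det ≠ 0) (e : Fin (m + 1)) :
    gpol lam c a (lf c a e) = ∑ l, gcst lam c a (al c T e l) * gpol lam c a (lf c a (T l)) +
      gcst lam c a (be c a T e) := by
  have h := (chg c a T hT).symm_apply_apply (lf c a e)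
  have h1 : chg c a T hT (lf c a e) = ∑ l, MvPolynomial.C (al c T e l) * MvPolynomial.X l +
    MvPolynomial.C (be c a T e) := fwd_lf T e
  have h2 : ∀ p, (chg c a T hT).symm p = bwd c a T p := fun p => rfl
  have h3 : ∀ i, bwd c a T (MvPolynomial.X i) = lf c a (T i) := fun i =>
    MvPolynomial.aeval_X _ _
  have h4 : ∀ x : K, bwd c a T (MvPolynomial.C x) = MvPolynomial.C x := fun x =>
    MvPolynomial.algHom_C _ x
  rw [h1, h2, map_add, map_sum, h4] at h
  conv_lhs => rw [← h]
  rw [map_add, map_sum]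
  congr 1
  refine Finset.sum_congr rfl fun i _ => ?_
  rw [map_mul, h3, h4, map_mul]
  rfl

/-- the coordinates without the coordinate `1` -/
noncomputable def zc (c : Fin (m + 1) → Fin (k + 1 + 1) → K) (a : Fin (m + 1) → K) :
    Fin (k + 1) → GRing lam c a :=
  Fin.cons (gpol lam c a (lf c a (T 0))) fun j => gpol lam c a (lf c a (T j.succ.succ))

/-- polynomials in these coordinates -/
noncomputable def evZ (c : Fin (m + 1) → Fin (k + 1 + 1) → K) (a : Fin (m + 1) → K) :
    MvPolynomial (Fin (k + 1)) K →+* GRing lam c a :=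
  MvPolynomial.eval₂Hom (gcst lam c a) (zc lam T c a)

theorem evZ_C (x : K) : evZ lam T c a (MvPolynomial.C x) = gcst lam c a x :=
  MvPolynomial.eval₂Hom_C _ _ _

theorem evZ_X0 : evZ lam T c a (MvPolynomial.X 0) = gpol lam c a (lf c a (T 0)) :=
  MvPolynomial.eval₂Hom_X' _ _ _

theorem evZ_Xs (j : Fin k) : evZ lam T c a (MvPolynomial.X j.succ) =
    gpol lam c a (lf c a (T j.succ.succ)) :=
  MvPolynomial.eval₂Hom_X' _ _ _

/-- the part of the equation without the coordinate `1` -/
noncomputable def re (c : Fin (m + 1) → Fin (k + 1 + 1) → K) (a : Fin (m + 1) → K)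
    (e : Fin (m + 1)) : MvPolynomial (Fin (k + 1)) K :=
  MvPolynomial.C (al c T e 0) * MvPolynomial.X 0 +
    ∑ j : Fin k, MvPolynomial.C (al c T e j.succ.succ) * MvPolynomial.X j.succ +
    MvPolynomial.C (be c a T e)

open Polynomial in
theorem exists_dvd_Z [IsDomain (GRing lam c a)] (hT : (cm c T).det ≠ 0)
    {f : GRing lam c a} (hf : f ≠ 0) :
    ∃ p : MvPolynomial (Fin (k + 1)) K, p ≠ 0 ∧ f ∣ evZ lam T c a p := by
  classical
  let _ : Algebra (MvPolynomial (Fin (k + 1)) K) (GRing lam c a) := (evZ lam T c a).toAlgebra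
  have hmap : ∀ p, algebraMap (MvPolynomial (Fin (k + 1)) K) (GRing lam c a) p =
    evZ lam T c a p := fun p => rfl
  have hev : ∀ (P : (MvPolynomial (Fin (k + 1)) K)[X]) (a' : GRing lam c a),
    aeval a' P = P.eval₂ (evZ lam T c a) a' := fun P a' => rfl
  -- the equation of the coordinate `1`
  set Q : (MvPolynomial (Fin (k + 1)) K)[X] := C (MvPolynomial.C lam) *
    ∏ e, (C (MvPolynomial.C (al c T e (Fin.succ 0))) * X + C (re T c a e)) - 1 with hQ
  have hQ0 : Q ≠ 0 := by
    intro h
    have h1 := congrArg (fun P : (MvPolynomial (Fin (k + 1)) K)[X] => P.eval 0) h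
    have h2 : re T c a (T (Fin.succ 0)) = 0 := by
      unfold re
      simp only [al_T T hT, be_T T hT]
      rw [if_neg (Fin.succ_ne_zero _), Finset.sum_eq_zero]
      · simp
      · intro j _
        rw [if_neg (fun h => Fin.succ_ne_zero _ (Fin.succ_injective _ h).symm)]
        simp
    simp only [hQ, eval_sub, eval_mul, eval_C, eval_prod, eval_add, eval_X, mul_zero,
      eval_one, eval_zero, zero_add] at h1
    rw [Finset.prod_eq_zero (Finset.mem_univ (T (Fin.succ 0))) h2] at h1
    simp at h1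
  have hQe : Q.eval₂ (evZ lam T c a) (gpol lam c a (lf c a (T (Fin.succ 0)))) = 0 := by
    rw [hQ, eval₂_sub, eval₂_mul, eval₂_C, evZ_C, eval₂_one, eval₂_finsetProd]
    have h2 : ∀ e, (C (MvPolynomial.C (al c T e (Fin.succ 0))) * X + C (re T c a e) :
        (MvPolynomial (Fin (k + 1)) K)[X]).eval₂
        (evZ lam T c a) (gpol lam c a (lf c a (T (Fin.succ 0)))) = gpol lam c a (lf c a e) := by
      intro e
      rw [eval₂_add, eval₂_mul, eval₂_C, eval₂_C, eval₂_X, evZ_C, gpol_lf lam T hT e,
        Fin.sum_univ_succ, Fin.sum_univ_succ]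
      unfold re
      rw [map_add, map_add, map_mul, map_sum, evZ_C, evZ_C, evZ_X0]
      simp only [map_mul, evZ_C, evZ_Xs]
      ring
    simp only [h2]
    rw [prod_gl, sub_self]
  have hone : IsAlgebraic (MvPolynomial (Fin (k + 1)) K)
      (gpol lam c a (lf c a (T (Fin.succ 0)))) := ⟨Q, hQ0, by rw [hev]; exact hQe⟩
  have hall : ∀ i, IsAlgebraic (MvPolynomial (Fin (k + 1)) K) (gpol lam c a (lf c a (T i))) := by
    intro i
    refine Fin.cases ?_ (fun i => ?_) i
    · rw [← evZ_X0, ← hmap]
      exact isAlgebraic_algebraMap _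
    · refine Fin.cases ?_ (fun i => ?_) i
      · exact hone
      · rw [← evZ_Xs, ← hmap]
        exact isAlgebraic_algebraMap _
  have hcst : ∀ x : K, IsAlgebraic (MvPolynomial (Fin (k + 1)) K) (gcst lam c a x) := by
    intro x
    rw [← evZ_C lam T, ← hmap]
    exact isAlgebraic_algebraMap _
  have hX : ∀ j, IsAlgebraic (MvPolynomial (Fin (k + 1)) K)
      (gpol lam c a (MvPolynomial.X j)) := by
    intro j
    rw [gpol_X lam T hT]
    refine Finset.sum_induction _ (IsAlgebraic (MvPolynomial (Fin (k + 1)) K))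
      (fun x y hx hy => hx.add hy) isAlgebraic_zero fun i _ => ?_
    exact (hcst _).mul ((hall i).add (hcst _))
  have hP : ∀ p, IsAlgebraic (MvPolynomial (Fin (k + 1)) K) (gpol lam c a p) := by
    intro p
    induction p using MvPolynomial.induction_on with
    | C x => exact hcst x
    | add p q hp hq => rw [map_add]; exact hp.add hq
    | mul_X p i hp => rw [map_mul]; exact hp.mul (hX i)
  obtain ⟨P, rfl⟩ := Ideal.Quotient.mk_surjective f
  obtain ⟨x, hx, h⟩ := (hP P).exists_nonzero_dvd (mem_nonZeroDivisors_of_ne_zero hf)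
  exact ⟨x, hx, h⟩

end alg

variable {K : Type*} [Field K] {k m : ℕ} {c : Fin (m + 1) → Fin (k + 1 + 1) → K}
  {a : Fin (m + 1) → K} {lam : K} {T : Fin (k + 1 + 1) → Fin (m + 1)} (D : PD lam c a T)

theorem PD.pl_T (hT : (cm c T).det ≠ 0) (i : Fin (k + 1 + 1)) :
    D.pl (gpol lam c a (lf c a (T i))) = D.y i := by
  rw [D.pl_gpol, D.ev_lf, ← D.fac, be_T T hT, map_zero, add_zero]
  simp only [al_T T hT]
  rw [Finset.sum_eq_single i]
  · rw [if_pos rfl, map_one, one_mul]
  · intro j _ hj
    rw [if_neg (fun h => hj h.symm), map_zero, zero_mul]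
  · intro h
    exact absurd (Finset.mem_univ i) h

theorem PD.pl_evZ (hT : (cm c T).det ≠ 0) (p : MvPolynomial (Fin (k + 1)) K) :
    D.pl (evZ lam T c a p) = p.eval₂ (CK K k) (yz K k) := by
  have h : D.pl.comp (evZ lam T c a) = MvPolynomial.eval₂Hom (CK K k) (yz K k) := by
    refine MvPolynomial.ringHom_ext (fun x => ?_) fun i => ?_
    · rw [RingHom.comp_apply, evZ_C, D.pl_gcst, MvPolynomial.eval₂Hom_C]
    · rw [RingHom.comp_apply, MvPolynomial.eval₂Hom_X']
      refine Fin.cases ?_ (fun i => ?_) i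
      · rw [evZ_X0, D.pl_T hT]
        show ti (FF K k) = _
        unfold ti yz ex
        rw [Fin.cons_zero]
        rfl
      · rw [evZ_Xs, D.pl_T hT]
        show HahnSeries.C (tj K i) * ti (FF K k) = _
        unfold ti yz ex tj
        rw [HahnSeries.C_apply, HahnSeries.single_mul_single, zero_add, mul_one, Fin.cons_succ]
  exact RingHom.congr_fun h p

theorem PD.pl_inj [IsDomain (GRing lam c a)] (hT : (cm c T).det ≠ 0) :
    Function.Injective D.pl := by
  rw [injective_iff_map_eq_zero]
  intro f hf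
  by_contra hf0
  obtain ⟨p, hp, g, hg⟩ := exists_dvd_Z lam T hT hf0
  have h1 := D.pl_evZ hT p
  rw [hg, map_mul, hf, zero_mul] at h1
  exact yz_inj hp h1.symm

end Pool.Agent.X232.CG
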