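import Pool.Agent.X232.CG.Inj
set_option autoImplicit false

/-!
The leading coefficients of polynomials at the places at infinity.
-/

namespace Pool.Agent.X232.CG

open Pool.Agent.TH826.MK

open Pool.Agent.X232.CU (ti ti_ne_zero order_ti od_coe)

open Pool.Agent.X232.CF.E (PS PS_C ti_X PS_ne)

open Pool.Agent.TH826.GA (GRing gpol gcst gu coe_gu lf geqn gpol_geqn prod_gl cm al be fwd bwd
  fwd_lf al_T be_T al_ne chg)

variable {K : Type*} [Field K] {k m : ℕ} {c : Fin (m + 1) → Fin (k + 1 + 1) → K}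
  {a : Fin (m + 1) → K} {lam : K} {T : Fin (k + 1 + 1) → Fin (m + 1)} (D : PD lam c a T)

/-- the series of the coordinates `y_i` times `t` -/
noncomputable def PD.ty : Fin (k + 1 + 1) → PowerSeries (FF K k) :=
  Fin.cons 1 (Fin.cons D.η (fun j => PowerSeries.C (tj K j)) :
    Fin (k + 1) → PowerSeries (FF K k))

theorem PD.y_ty (i : Fin (k + 1 + 1)) : D.y i = ti (FF K k) * PS (FF K k) (D.ty i) := by
  refine Fin.cases ?_ (fun i => ?_) i
  · show ti (FF K k) = ti (FF K k) * PS (FF K k) 1
    rw [map_one, mul_one]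
  · refine Fin.cases ?_ (fun i => ?_) i
    · rfl
    · show HahnSeries.C (tj K i) * ti (FF K k) = ti (FF K k) * PS (FF K k) (PowerSeries.C (tj K i))
      rw [PS_C, mul_comm]

/-- the generic point of the hyperplane at infinity on which `L_{T 1}` vanishes, in the
coordinates `y` -/
noncomputable def wp (K : Type*) [Field K] (k : ℕ) : Fin (k + 1 + 1) → FF K k :=
  Fin.cons 1 (Fin.cons 0 (fun j => tj K j) : Fin (k + 1) → FF K k)

theorem PD.cc_ty (i : Fin (k + 1 + 1)) : PowerSeries.constantCoeff (D.ty i) = wp K k i := by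
  refine Fin.cases ?_ (fun i => ?_) i
  · exact map_one _
  · refine Fin.cases ?_ (fun i => ?_) i
    · exact D.cc
    · exact PowerSeries.constantCoeff_C _

/-- the series of the coordinates `x_j` times `t` -/
noncomputable def PD.xs (j : Fin (k + 1 + 1)) : PowerSeries (FF K k) :=
  ∑ i, PowerSeries.C (HahnSeries.C ((cm c T)⁻¹ j i)) *
    (D.ty i + PowerSeries.C (HahnSeries.C (a (T i))) * PowerSeries.X)

/-- the same point in the coordinates `x` -/
noncomputable def pt (c : Fin (m + 1) → Fin (k + 1 + 1) → K) (T : Fin (k + 1 + 1) → Fin (m + 1))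
    (j : Fin (k + 1 + 1)) : FF K k := ∑ i, HahnSeries.C ((cm c T)⁻¹ j i) * wp K k i

theorem PD.cc_xs (j : Fin (k + 1 + 1)) : PowerSeries.constantCoeff (D.xs j) = pt c T j := by
  unfold PD.xs pt
  rw [map_sum]
  refine Finset.sum_congr rfl fun i _ => ?_
  rw [map_mul, map_add, D.cc_ty, map_mul, PowerSeries.constantCoeff_X, mul_zero, add_zero,
    PowerSeries.constantCoeff_C]

theorem PD.ev_X (j : Fin (k + 1 + 1)) : D.ev (MvPolynomial.X j) =
    ti (FF K k) * PS (FF K k) (D.xs j) := by
  have h := ti_X (K := FF K k)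
  show MvPolynomial.eval₂Hom (CK K k) D.y (fwd c a T (MvPolynomial.X j)) = _
  have hX : fwd c a T (MvPolynomial.X j) = ∑ i, MvPolynomial.C ((cm c T)⁻¹ j i) *
    (MvPolynomial.X i + MvPolynomial.C (a (T i))) := MvPolynomial.aeval_X _ _
  rw [hX, map_sum]
  unfold PD.xs
  rw [map_sum, Finset.mul_sum]
  refine Finset.sum_congr rfl fun i _ => ?_
  rw [map_mul, map_add, MvPolynomial.eval₂Hom_C, MvPolynomial.eval₂Hom_C,
    MvPolynomial.eval₂Hom_X', D.y_ty, map_mul, map_add, map_mul, PS_C, PS_C, CK_apply, CK_apply]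
  linear_combination (-(HahnSeries.C (HahnSeries.C ((cm c T)⁻¹ j i)) : HahnSeries ℤ (FF K k)) *
    HahnSeries.C (HahnSeries.C (a (T i)))) * h

theorem PD.ev_eq (P : MvPolynomial (Fin (k + 1 + 1)) K) :
    D.ev P = P.eval₂ (CK K k) fun j => ti (FF K k) * PS (FF K k) (D.xs j) := by
  have h : D.ev = MvPolynomial.eval₂Hom (CK K k) fun j => ti (FF K k) * PS (FF K k) (D.xs j) := by
    refine MvPolynomial.ringHom_ext (fun x => ?_) fun j => ?_
    · rw [D.ev_C, MvPolynomial.eval₂Hom_C]
    · rw [D.ev_X, MvPolynomial.eval₂Hom_X']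
  exact RingHom.congr_fun h P

/-- the series of a polynomial times `t ^ N` -/
noncomputable def PD.GP (P : MvPolynomial (Fin (k + 1 + 1)) K) (N : ℕ) :
    PowerSeries (FF K k) :=
  ∑ n ∈ P.support, PowerSeries.C (HahnSeries.C (P.coeff n)) *
    PowerSeries.X ^ (N - n.degree) * ∏ j, D.xs j ^ n j

theorem PD.ev_GP {P : MvPolynomial (Fin (k + 1 + 1)) K} {N : ℕ} (hN : P.totalDegree ≤ N) :
    D.ev P = ti (FF K k) ^ N * PS (FF K k) (D.GP P N) := by
  rw [D.ev_eq, MvPolynomial.eval₂_eq']
  unfold PD.GP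
  rw [map_sum, Finset.mul_sum]
  refine Finset.sum_congr rfl fun n hn => ?_
  have hdeg : n.degree ≤ N := by
    refine le_trans ?_ hN
    exact MvPolynomial.le_totalDegree hn
  have h1 : ∏ j, (ti (FF K k) * PS (FF K k) (D.xs j)) ^ n j =
      ti (FF K k) ^ n.degree * PS (FF K k) (∏ j, D.xs j ^ n j) := by
    simp only [mul_pow]
    rw [Finset.prod_mul_distrib, Finset.prod_pow_eq_pow_sum, map_prod]
    congr 1
    · congr 1
      rw [Finsupp.degree_eq_sum]
    · refine Finset.prod_congr rfl fun j _ => ?_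
      rw [map_pow]
  rw [h1, map_mul, map_mul, map_pow, PS_C, CK_apply]
  have h2 : ti (FF K k) ^ N * PS (FF K k) PowerSeries.X ^ (N - n.degree) =
      ti (FF K k) ^ n.degree := by
    have : N = n.degree + (N - n.degree) := by omega
    conv_lhs => rw [this, pow_add]
    rw [show n.degree + (N - n.degree) - n.degree = N - n.degree by omega, mul_assoc, ← mul_pow,
      ti_X, one_pow, mul_one]
  rw [← h2]
  ring

/-- the constant coefficient of this series is the value of the leading form -/
theorem PD.cc_GP {P : MvPolynomial (Fin (k + 1 + 1)) K} {N : ℕ} (hN : P.totalDegree ≤ N) :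
    PowerSeries.constantCoeff (D.GP P N) =
      (MvPolynomial.homogeneousComponent N P).eval₂ (HahnSeries.C : K →+* FF K k) (pt c T) := by
  rw [MvPolynomial.homogeneousComponent_apply, MvPolynomial.eval₂_sum, Finset.sum_filter]
  unfold PD.GP
  rw [map_sum]
  refine Finset.sum_congr rfl fun n hn => ?_
  have hdeg : n.degree ≤ N := by
    refine le_trans ?_ hN
    exact MvPolynomial.le_totalDegree hn
  rw [map_mul, map_mul, map_pow, PowerSeries.constantCoeff_X, PowerSeries.constantCoeff_C,
    map_prod]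
  by_cases h : n.degree = N
  · rw [if_pos h, h, Nat.sub_self, pow_zero, mul_one, MvPolynomial.eval₂_monomial,
      Finsupp.prod_fintype _ _ fun i => pow_zero _]
    congr 1
    refine Finset.prod_congr rfl fun j _ => ?_
    rw [map_pow, D.cc_xs]
  · rw [if_neg h, zero_pow (by omega), mul_zero, zero_mul]

end Pool.Agent.X232.CG
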