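import Pool.Agent.X232.CG.Asm
import Pool.Agent.TH826.GA.Final
set_option autoImplicit false

/-!
The regulator on the part of `K_{d+1}` of the hypersurfaces `λ ∏_e L_e = 1` which is given by symbols
of units of the coordinate ring.
-/

namespace Pool.Agent.X232.CG

open Pool.Agent.TH826.MK

open Pool.Agent.X232.CF (cu coe_cu UnramifiedOver)

open Pool.Agent.X232.CU (lin_iso kq_rat_zero)

open Pool.Agent.TH826.GA (GRing gpol gcst gu lf geqn cm gent vert splx splx_injective)

open Pool.Agent.Y797.IV (Clears GenPos)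

open scoped TensorProduct

section defs

variable {K A : Type*} [Field K] [CommRing A] (cst : K →+* A) (L : Type*) [Field L] [Algebra A L]
  (d : ℕ)

/-- The elements of `K_{d+1}(A) ⊗ ℚ` whose images in `K_{d+1}(L) ⊗ ℚ` are unramified at all discrete
valuations of `L` which are trivial on the field `K` of constants. -/
noncomputable def Cus : Submodule ℚ (KQ A (d + 1)) :=
  (UnramifiedOver ((algebraMap A L).comp cst) (d + 1)).comap (KQ.map (d + 1) (algebraMap A L))

/-- The image in `K_{d+1}(L) ⊗ ℚ`. -/
noncomputable def img (α : KQ A (d + 1)) : KQ L (d + 1) := KQ.map (d + 1) (algebraMap A L) α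

/-- The subspace of `K_{d+1}(L) ⊗ ℚ` generated by the symbols with two entries in `K`. -/
noncomputable def TwoK : Submodule ℚ (KQ L (d + 1)) := Two ((algebraMap A L).comp cst) (d + 1)

/-- The `ℚ`-vector space of the regulators, for all tori over embeddings of `K`, of the elements of
`Cus`. -/
noncomputable def RegSpace : Submodule ℚ ({Γ : Torus A d // ∃ σ, Over cst d σ Γ} → ℝ) :=
  (Cus cst L d).map (regs cst d)

/-- The images in `K_{d+1}(L) ⊗ ℚ` of the elements of `Cus` are unramified at all discrete valuations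
of `L` modulo the symbols with two entries in `K`. -/
def IntegralMod : Prop :=
  ∀ α ∈ Cus cst L d, img L d α ∈ Unramified L (d + 1) ⊔ TwoK cst L d

/-- The elements of `Cus` whose regulators over `σ` vanish have image `0` in `K_{d+1}(L) ⊗ ℚ` modulo
the symbols with two entries in `K`, and all their regulators vanish. -/
def InjectiveMod (σ : K →+* ℂ) : Prop :=
  ∀ α ∈ Cus cst L d, (∀ Γ : Torus A d, Over cst d σ Γ → Γ.reg α = 0) →
    img L d α ∈ TwoK cst L d ∧ ∀ (τ : K →+* ℂ) (Γ : Torus A d), Over cst d τ Γ → Γ.reg α = 0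

/-- The dimension of the space `V` of functions is `N`. -/
def HasDim {Ω : Type*} (V : Submodule ℚ (Ω → ℝ)) (N : ℕ) : Prop := Module.finrank ℚ V = N

/-- The evaluation `V → ℝ ^ T` of the elements of the space `V` of functions on `Ω` at the points
`Γ_t` of `Ω`. -/
noncomputable def evalAt {Ω T : Type*} (V : Submodule ℚ (Ω → ℝ)) (Γ : T → Ω) : V →ₗ[ℚ] (T → ℝ) :=
  (LinearMap.funLeft ℚ ℝ Γ).comp V.subtype

/-- The `ℝ`-linear extension `ℝ ⊗ V → ℝ ^ T` of `ρ` is an isomorphism. -/
def BijR {V T : Type*} [AddCommGroup V] [Module ℚ V] (ρ : V →ₗ[ℚ] (T → ℝ)) : Prop :=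
  Function.Bijective (ρ.liftBaseChange ℝ)

/-- For the space `V` of real valued functions on `Ω` and the points `Γ_t` of `Ω` the `ℝ`-linear
extension `ℝ ⊗ V → ℝ ^ T` of the evaluation at the points `Γ_t` is an isomorphism. -/
def EvalIso {Ω T : Type*} (V : Submodule ℚ (Ω → ℝ)) (Γ : T → Ω) : Prop := BijR (evalAt V Γ)

/-- There is a family of tori `Γ_t`, `t ∈ T`, over `σ`, such that the `ℝ`-linear extension of the
regulators of the elements of `Cus` for the tori `Γ_t` is an isomorphism onto `ℝ ^ T`. -/
def TorusIso (T : Type) (σ : K →+* ℂ) : Prop :=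
  ∃ Γ : T → {Γ : Torus A d // ∃ σ, Over cst d σ Γ}, (∀ t, Over cst d σ (Γ t).1) ∧
    EvalIso (RegSpace cst L d) Γ

/-- The images in `K_{d+1}(L) ⊗ ℚ` of the elements of `Cus` are unramified at all discrete valuations
of `L` modulo the symbols with two entries in `K`; the regulators of the elements of `Cus` form a
`ℚ`-vector space of dimension `N`; the elements of `Cus` whose regulators over `σ` vanish have image
`0` modulo the symbols with two entries in `K`, and all their regulators vanish; and there is a
family of tori `Γ_t`, `t ∈ T`, over `σ`, such that the `ℝ`-linear extension of the regulators for the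
tori `Γ_t` is an isomorphism onto `ℝ ^ T`. -/
def RegIso (N : ℕ) (T : Type) (σ : K →+* ℂ) : Prop :=
  IntegralMod cst L d ∧ HasDim (RegSpace cst L d) N ∧ InjectiveMod cst L d σ ∧
    TorusIso cst L d T σ

end defs

section two

theorem two_const_ij {K A : Type*} [Field K] [CommRing A] (h2 : ∀ z : KQ K 2, z = 0)
    (cst : K →+* A) {n : ℕ} (u : Fin n → Aˣ) {i j : Fin n} (hij : i ≠ j) {x y : Kˣ}
    (hi : u i = cu cst x) (hj : u j = cu cst y) : symb u = 0 := by
  let φ : KQ K 2 →ₗ[ℚ] KQ A n := KQ.lift
    (fun c => symb (Function.update (Function.update u i (cu cst (c 0))) j (cu cst (c 1))))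
    (by
      intro a l x y
      fin_cases l
      · simp only [Fin.zero_eta, Function.update_self, ne_eq, one_ne_zero, not_false_eq_true,
          Function.update_of_ne, map_mul]
        rw [Function.update_comm hij, Function.update_comm hij, Function.update_comm hij]
        exact symb_update_mul _ i _ _
      · simp only [Fin.mk_one, Function.update_self, ne_eq, zero_ne_one, not_false_eq_true,
          Function.update_of_ne, map_mul]
        exact symb_update_mul _ j _ _)
    (by
      rintro a ⟨l, l', hll, h⟩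
      have hl : l = 0 := by
        ext
        have := l.2
        have := l'.2
        have : (l : ℕ) < l' := hll
        simp only [Fin.coe_ofNat_eq_mod]
        omega
      have hl' : l' = 1 := by
        ext
        have := l.2
        have := l'.2
        have : (l : ℕ) < l' := hll
        simp only [Fin.coe_ofNat_eq_mod]
        omega
      subst hl
      subst hl'
      refine symb_eq_zero' _ hij ?_
      rw [Function.update_of_ne hij, Function.update_self, Function.update_self, coe_cu, coe_cu,
        ← map_add, h, map_one])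
  have h3 : φ (symb ![x, y]) = symb (Function.update (Function.update u i (cu cst x)) j
      (cu cst y)) := KQ.lift_symb _ _ _ _
  have h4 : Function.update (Function.update u i (cu cst x)) j (cu cst y) = u := by
    rw [← hi, ← hj, Function.update_eq_self, Function.update_eq_self]
  rw [← h4, ← h3, h2 (symb ![x, y]), map_zero]

theorem two_bot {K L : Type*} [Field K] [Field L] (h2 : ∀ z : KQ K 2, z = 0) (ι : K →+* L)
    (n : ℕ) : Two ι n = ⊥ := by
  rw [eq_bot_iff]
  unfold Two
  rw [Submodule.span_le]
  rintro z ⟨u, i, j, x, y, hij, hi, hj, rfl⟩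
  show symb u = 0
  exact two_const_ij h2 ι u hij (Units.ext hi) (Units.ext hj)

end two

variable {K : Type*} [Field K] {k m : ℕ} {c : Fin (m + 1) → Fin (k + 1 + 1) → K}
  {a : Fin (m + 1) → K} {lam : K}

theorem unram_le (L : Type*) [Field L] (ι : K →+* L) (n : ℕ) :
    Unramified L n ≤ UnramifiedOver ι n := by
  intro z hz
  unfold Unramified at hz
  unfold UnramifiedOver
  simp only [Submodule.mem_iInf] at hz ⊢
  intro v hv _
  exact hz v hv

theorem regIso_of (L : Type*) [Field L] [Algebra (GRing lam c a) L]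
    [IsFractionRing (GRing lam c a) L] (σ : K →+* ℂ) (hG : GenPos c a) (hm : k + 1 ≤ m)
    (hlam : lam ≠ 0)
    (hun : ∀ t : {s : Finset (Fin m) // s.card = k + 1 + 1},
      KQ.map (k + 1 + 1) (algebraMap (GRing lam c a) L) (symb (gent lam c a (splx t))) ∈
        Unramified L (k + 1 + 1))
    (Γ : {s : Finset (Fin m) // s.card = k + 1 + 1} → Torus (GRing lam c a) (k + 1))
    (hΓ : ∀ t, Over (gcst lam c a) (k + 1) σ (Γ t))
    (hdet : (Matrix.of fun t i : {s : Finset (Fin m) // s.card = k + 1 + 1} =>
      (Γ t).reg (symb (gent lam c a (splx i)))).det ≠ 0) :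
    RegIso (gcst lam c a) L (k + 1) (m.choose (k + 1 + 1))
      {s : Finset (Fin m) // s.card = k + 1 + 1} σ := by
  classical
  have hcl : ∀ t : {s : Finset (Fin m) // s.card = k + 1 + 1},
      KQ.map (k + 1 + 1) (algebraMap (GRing lam c a) L) (symb (gent lam c a (splx t))) ∈
        UnramifiedOver ((algebraMap (GRing lam c a) L).comp (gcst lam c a)) (k + 1 + 1) :=
    fun t => unram_le L _ _ (hun t)
  have hmem : ∀ t, symb (gent lam c a (splx t)) ∈ Cus (gcst lam c a) L (k + 1) := fun t => hcl t
  -- the regulators of a combination determine the coefficients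
  have hq : ∀ q : {s : Finset (Fin m) // s.card = k + 1 + 1} → ℚ,
      (∀ t, (Γ t).reg (∑ i, q i • symb (gent lam c a (splx i))) = 0) → q = 0 := by
    intro q h
    have h1 : (Matrix.of fun t i : {s : Finset (Fin m) // s.card = k + 1 + 1} =>
        (Γ t).reg (symb (gent lam c a (splx i)))).mulVec (fun i => (q i : ℝ)) = 0 := by
      funext t
      have h2 := h t
      rw [map_sum] at h2
      simp only [map_smul] at h2
      rw [Matrix.mulVec, dotProduct, Pi.zero_apply, ← h2]
      refine Finset.sum_congr rfl fun i _ => ?_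
      rw [Matrix.of_apply, mul_comm]
      rfl
    have h3 := Matrix.eq_zero_of_mulVec_eq_zero hdet h1
    funext i
    have h4 := congrFun h3 i
    simpa using h4
  have key : ∀ α ∈ Cus (gcst lam c a) L (k + 1),
      ∃ q : {s : Finset (Fin m) // s.card = k + 1 + 1} → ℚ,
        psi (gcst lam c a) L (k + 1) (α - ∑ t, q t • symb (gent lam c a (splx t))) ∈
          PTwo (gcst lam c a) L k := fun α hα => unr_eq (L := L) hG hm hlam hcl hα
  have kfst : ∀ α β : KQ (GRing lam c a) (k + 1 + 1),
      psi (gcst lam c a) L (k + 1) (α - β) ∈ PTwo (gcst lam c a) L k →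
      KQ.map (k + 1 + 1) (algebraMap (GRing lam c a) L) α -
        KQ.map (k + 1 + 1) (algebraMap (GRing lam c a) L) β ∈
          Two ((algebraMap (GRing lam c a) L).comp (gcst lam c a)) (k + 1 + 1) := by
    intro α β h
    have h1 := PTwo_fst _ _ h
    have h2 : (psi (gcst lam c a) L (k + 1) (α - β)).1 =
        KQ.map (k + 1 + 1) (algebraMap (GRing lam c a) L) (α - β) := rfl
    rw [h2, map_sub] at h1
    exact h1
  have ksnd : ∀ α β : KQ (GRing lam c a) (k + 1 + 1),
      psi (gcst lam c a) L (k + 1) (α - β) ∈ PTwo (gcst lam c a) L k →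
      regs (gcst lam c a) (k + 1) α = regs (gcst lam c a) (k + 1) β := by
    intro α β h
    have h1 := PTwo_snd _ _ h
    have h2 : (psi (gcst lam c a) L (k + 1) (α - β)).2 =
        regs (gcst lam c a) (k + 1) (α - β) := rfl
    rw [h2, map_sub, sub_eq_zero] at h1
    exact h1
  set V := (Cus (gcst lam c a) L (k + 1)).map (regs (gcst lam c a) (k + 1)) with hV
  set b : {s : Finset (Fin m) // s.card = k + 1 + 1} → V := fun t => ⟨regs (gcst lam c a) (k + 1) (symb (gent lam c a (splx t))),
    ⟨_, hmem t, rfl⟩⟩ with hb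
  set Γ' : {s : Finset (Fin m) // s.card = k + 1 + 1} →
      {Γ : Torus (GRing lam c a) (k + 1) // ∃ σ, Over (gcst lam c a) (k + 1) σ Γ} :=
    fun t => ⟨Γ t, σ, hΓ t⟩ with hΓ'
  have hsum : ∀ q : {s : Finset (Fin m) // s.card = k + 1 + 1} → ℚ, ((∑ i, q i • b i : V) : _ → ℝ) =
      regs (gcst lam c a) (k + 1) (∑ i, q i • symb (gent lam c a (splx i))) := by
    intro q
    rw [map_sum]
    simp only [map_smul]
    rw [Submodule.coe_sum]
    rfl
  have hli : LinearIndependent ℚ b := by
    rw [Fintype.linearIndependent_iff]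
    intro q h i
    have h1 : regs (gcst lam c a) (k + 1) (∑ i, q i • symb (gent lam c a (splx i))) = 0 := by
      rw [← hsum, h]
      rfl
    have h2 := hq q fun t => congrFun h1 (Γ' t)
    rw [h2]
    rfl
  have hsp : ⊤ ≤ Submodule.span ℚ (Set.range b) := by
    rintro ⟨_, α, hα, rfl⟩ _
    obtain ⟨q, h⟩ := key α hα
    have h1 := ksnd _ _ h
    have h2 : (⟨regs (gcst lam c a) (k + 1) α, ⟨α, hα, rfl⟩⟩ : V) = ∑ i, q i • b i := by
      apply Subtype.ext
      rw [hsum]
      exact h1
    rw [h2]
    exact Submodule.sum_mem _ fun i _ => Submodule.smul_mem _ _ (Submodule.subset_span ⟨i, rfl⟩)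
  obtain ⟨hrank, hbij⟩ := lin_iso b hli hsp ((LinearMap.funLeft ℚ ℝ Γ').comp V.subtype) hdet
  refine ⟨?_, ?_, ?_, Γ', hΓ, hbij⟩
  · intro α hα
    obtain ⟨q, h⟩ := key α hα
    have h1 := kfst _ _ h
    have h2 : KQ.map (k + 1 + 1) (algebraMap (GRing lam c a) L)
        (∑ t, q t • symb (gent lam c a (splx t))) ∈ Unramified L (k + 1 + 1) := by
      rw [map_sum]
      refine Submodule.sum_mem _ fun t _ => ?_
      rw [map_smul]
      exact Submodule.smul_mem _ _ (hun t)
    have h3 := Submodule.add_mem_sup h2 h1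
    rwa [add_sub_cancel] at h3
  · show Module.finrank ℚ V = _
    rw [hrank, Fintype.card_finset_len, Fintype.card_fin]
  · intro α hα h0
    obtain ⟨q, h⟩ := key α hα
    have h1 := ksnd _ _ h
    have h2 : q = 0 := by
      refine hq q fun t => ?_
      have h3 := congrFun h1 (Γ' t)
      rw [regs_apply, regs_apply] at h3
      rw [← h3]
      exact h0 (Γ t) (hΓ t)
    have h4 := kfst _ _ h
    rw [h2] at h1 h4
    simp only [Pi.zero_apply, zero_smul, Finset.sum_const_zero, map_zero, sub_zero] at h1 h4
    exact ⟨h4, fun τ Γ'' hΓ'' => congrFun h1 ⟨Γ'', τ, hΓ''⟩⟩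

end Pool.Agent.X232.CG
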