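import Pool.Agent.X232.CG.FF
import Pool.Agent.X232.CG.Hens
import Pool.Agent.X232.CF.E.Ord
import Pool.Agent.TH826.GA.Dom
set_option autoImplicit false

/-!
The place at infinity of the hypersurface `λ ∏_e L_e = 1` on which `L_{T 1}` vanishes.
-/

namespace Pool.Agent.X232.CG

open Pool.Agent.TH826.MK

open Pool.Agent.X232.CU (s1 s1_mul s1_one ti ti_ne_zero order_ti od_coe)

open Pool.Agent.X232.CF.E (PS PS_C ti_X PS_ne)

open Pool.Agent.TH826.GA (GRing gpol gcst gu coe_gu lf geqn gpol_geqn prod_gl cm al be fwd fwd_lf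
  al_T be_T al_ne)

variable {K : Type*} [Field K] {k m : ℕ}

/-- the constants -/
noncomputable def CK (K : Type*) [Field K] (k : ℕ) : K →+* HahnSeries ℤ (FF K k) :=
  (HahnSeries.C : FF K k →+* HahnSeries ℤ (FF K k)).comp HahnSeries.C

theorem CK_apply (x : K) : CK K k x = HahnSeries.C (HahnSeries.C x) := rfl

theorem lc_PS {F : Type*} [Field F] {p : PowerSeries F} (hp : PowerSeries.constantCoeff p ≠ 0) :
    (PS F p).leadingCoeff = PowerSeries.constantCoeff p := by
  have h := HahnSeries.ofPowerSeries_apply_coeff (Γ := ℤ) p 0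
  rw [Nat.cast_zero] at h
  rw [HahnSeries.leadingCoeff_eq, od_coe hp, h, PowerSeries.coeff_zero_eq_constantCoeff_apply]

theorem lc_tiPS {F : Type*} [Field F] {p : PowerSeries F}
    (hp : PowerSeries.constantCoeff p ≠ 0) :
    (ti F * PS F p).order = -1 ∧ (ti F * PS F p).leadingCoeff = PowerSeries.constantCoeff p := by
  constructor
  · rw [HahnSeries.order_mul ti_ne_zero (PS_ne hp), order_ti, od_coe hp]
    rfl
  · rw [HahnSeries.leadingCoeff_mul, lc_PS hp]
    unfold ti
    rw [HahnSeries.leadingCoeff_of_single, one_mul]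

variable (c : Fin (m + 1) → Fin (k + 1 + 1) → K) (a : Fin (m + 1) → K)
  (T : Fin (k + 1 + 1) → Fin (m + 1))

/-- the constant coefficient of the series of `L_e` -/
noncomputable def bc (e : Fin (m + 1)) : FF K k :=
  lin (al c T e 0) fun j => al c T e j.succ.succ

/-- the part of the series of `L_e` without the coordinate `1` -/
noncomputable def bt (e : Fin (m + 1)) : PowerSeries (FF K k) :=
  PowerSeries.C (bc c T e) + PowerSeries.C (HahnSeries.C (be c a T e)) * PowerSeries.X

theorem cc_bt (e : Fin (m + 1)) : PowerSeries.constantCoeff (bt c a T e) = bc c T e := by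
  unfold bt
  simp

variable {c a T}

section facts

variable (hdet : ∀ T : Fin (k + 1 + 1) → Fin (m + 1), Function.Injective T → (cm c T).det ≠ 0)
  (hT : Function.Injective T)

include hdet hT

theorem bc_zero : bc c T (T 0) = 1 := by
  unfold bc lin
  simp only [al_T T (hdet T hT)]
  rw [if_pos trivial, map_one, Finset.sum_eq_zero, add_zero]
  intro j _
  rw [if_neg (Fin.succ_ne_zero _).symm, map_zero, zero_mul]

theorem bc_ss (j : Fin k) : bc c T (T j.succ.succ) = tj K j := by
  unfold bc lin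
  simp only [al_T T (hdet T hT)]
  rw [if_neg (Fin.succ_ne_zero _), map_zero, zero_add, Finset.sum_eq_single j]
  · rw [if_pos rfl, map_one, one_mul]
  · intro l _ hl
    rw [if_neg (fun h => hl (Fin.succ_injective _ (Fin.succ_injective _ h)).symm), map_zero,
      zero_mul]
  · intro h
    exact absurd (Finset.mem_univ j) h

theorem al_one : al c T (T (Fin.succ 0)) (Fin.succ 0) = 1 := by
  rw [al_T T (hdet T hT), if_pos rfl]

theorem bc_one : bc c T (T (Fin.succ 0)) = 0 := by
  unfold bc lin
  simp only [al_T T (hdet T hT)]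
  rw [if_neg (Fin.succ_ne_zero _), map_zero, zero_add, Finset.sum_eq_zero]
  intro j _
  rw [if_neg (fun h => Fin.succ_ne_zero _ (Fin.succ_injective _ h).symm), map_zero, zero_mul]

theorem bt_one : bt c a T (T (Fin.succ 0)) = 0 := by
  unfold bt
  rw [bc_one hdet hT, be_T T (hdet T hT)]
  simp

theorem bc_other {e : Fin (m + 1)} (he : ∀ i, T i ≠ e) :
    bc c T e ≠ 0 ∧ (bc c T e).order = 0 ∧ (bc c T e).leadingCoeff = al c T e 0 :=
  lin_facts (al_ne T hdet hT he 0) _

theorem bc_ne {e : Fin (m + 1)} (he : e ≠ T (Fin.succ 0)) : bc c T e ≠ 0 := by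
  by_cases h : ∃ i, T i = e
  · obtain ⟨i, rfl⟩ := h
    revert he
    refine Fin.cases ?_ (fun i => ?_) i
    · intro _
      rw [bc_zero hdet hT]
      exact one_ne_zero
    · refine Fin.cases ?_ (fun i => ?_) i
      · intro he
        exact absurd rfl he
      · intro _
        rw [bc_ss hdet hT]
        exact tj_ne i
  · push Not at h
    exact (bc_other hdet hT h).1

variable {lam : K} (hlam : lam ≠ 0)

include hlam

theorem exists_etaG : ∃ η : PowerSeries (FF K k), PowerSeries.constantCoeff η = 0 ∧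
    PowerSeries.C (HahnSeries.C lam) * ∏ e,
      (PowerSeries.C (HahnSeries.C (al c T e (Fin.succ 0))) * η + bt c a T e) =
        PowerSeries.X ^ (m + 1) := by
  classical
  obtain ⟨η, h1, h2⟩ := exists_eta (Finset.univ.erase (T (Fin.succ 0))) (bt c a T)
    (fun e => (HahnSeries.C (al c T e (Fin.succ 0)) : FF K k))
    (HahnSeries.C lam : FF K k) ((map_ne_zero _).2 hlam) (fun e he => by
      rw [cc_bt]
      exact bc_ne hdet hT (Finset.ne_of_mem_erase he))
  refine ⟨η, h1, ?_⟩
  rw [← Finset.mul_prod_erase _ _ (Finset.mem_univ (T (Fin.succ 0))), al_one hdet hT,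
    bt_one hdet hT, map_one, map_one, one_mul, add_zero, h2,
    Finset.card_erase_of_mem (Finset.mem_univ _), Finset.card_univ, Fintype.card_fin]
  rfl

end facts

/-- a place at infinity, given by the series of the coordinate `1` -/
structure PD (lam : K) (c : Fin (m + 1) → Fin (k + 1 + 1) → K) (a : Fin (m + 1) → K)
    (T : Fin (k + 1 + 1) → Fin (m + 1)) where
  η : PowerSeries (FF K k)
  cc : PowerSeries.constantCoeff η = 0
  eq : PowerSeries.C (HahnSeries.C lam) * ∏ e,
      (PowerSeries.C (HahnSeries.C (al c T e (Fin.succ 0))) * η + bt c a T e) =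
        PowerSeries.X ^ (m + 1)

variable {lam : K} (D : PD lam c a T)

/-- the coordinates -/
noncomputable def PD.y : Fin (k + 1 + 1) → HahnSeries ℤ (FF K k) :=
  Fin.cons (ti (FF K k)) (Fin.cons (ti (FF K k) * PS (FF K k) D.η)
    (fun j => HahnSeries.C (tj K j) * ti (FF K k)) : Fin (k + 1) → HahnSeries ℤ (FF K k))

/-- the series of `L_e` times `t` -/
noncomputable def PD.se (e : Fin (m + 1)) : PowerSeries (FF K k) :=
  PowerSeries.C (HahnSeries.C (al c T e (Fin.succ 0))) * D.η + bt c a T e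

theorem PD.cc_se (e : Fin (m + 1)) : PowerSeries.constantCoeff (D.se e) = bc c T e := by
  unfold PD.se
  rw [map_add, map_mul, D.cc, mul_zero, zero_add, cc_bt]

theorem PD.fac (e : Fin (m + 1)) :
    ∑ l, CK K k (al c T e l) * D.y l + CK K k (be c a T e) =
      ti (FF K k) * PS (FF K k) (D.se e) := by
  have h := ti_X (K := FF K k)
  have h0 : D.y 0 = ti (FF K k) := rfl
  have h1 : D.y (Fin.succ 0) = ti (FF K k) * PS (FF K k) D.η := rfl
  have h2 : ∀ j : Fin k, D.y j.succ.succ = HahnSeries.C (tj K j) * ti (FF K k) := fun j => rfl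
  rw [Fin.sum_univ_succ, Fin.sum_univ_succ, h0, h1]
  simp only [h2]
  unfold PD.se bt bc lin
  simp only [map_add, map_mul, map_sum, PS_C, CK_apply]
  have h3 : ∑ x : Fin k, HahnSeries.C (HahnSeries.C (al c T e x.succ.succ)) *
      (HahnSeries.C (tj K x) * ti (FF K k)) =
      ti (FF K k) * ∑ x : Fin k, HahnSeries.C (HahnSeries.C (al c T e x.succ.succ)) *
        (HahnSeries.C (tj K x) : HahnSeries ℤ (FF K k)) := by
    rw [Finset.mul_sum]
    refine Finset.sum_congr rfl fun j _ => ?_
    ring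
  rw [h3]
  linear_combination (-HahnSeries.C (HahnSeries.C (be c a T e)) : HahnSeries ℤ (FF K k)) * h

theorem PD.tot : CK K k lam * ∏ e, (∑ l, CK K k (al c T e l) * D.y l + CK K k (be c a T e)) =
    1 := by
  simp only [D.fac]
  rw [Finset.prod_mul_distrib, Finset.prod_const, Finset.card_univ, Fintype.card_fin,
    ← map_prod, CK_apply, ← PS_C]
  have h1 : PS (FF K k) (PowerSeries.C (HahnSeries.C lam)) * (ti (FF K k) ^ (m + 1) *
      PS (FF K k) (∏ e, D.se e)) = ti (FF K k) ^ (m + 1) * PS (FF K k)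
        (PowerSeries.C (HahnSeries.C lam) * ∏ e, D.se e) := by
    rw [map_mul]
    ring
  have h2 : PowerSeries.C (HahnSeries.C lam) * ∏ e, D.se e = PowerSeries.X ^ (m + 1) := D.eq
  rw [h1, h2, map_pow, ← mul_pow, ti_X, one_pow]

/-- evaluation of polynomials -/
noncomputable def PD.ev : MvPolynomial (Fin (k + 1 + 1)) K →+* HahnSeries ℤ (FF K k) :=
  (MvPolynomial.eval₂Hom (CK K k) D.y).comp (fwd c a T : _ →+* MvPolynomial (Fin (k + 1 + 1)) K)

theorem PD.ev_C (x : K) : D.ev (MvPolynomial.C x) = CK K k x := by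
  show MvPolynomial.eval₂Hom (CK K k) D.y (fwd c a T (MvPolynomial.C x)) = _
  have h : fwd c a T (MvPolynomial.C x) = MvPolynomial.C x := MvPolynomial.algHom_C _ x
  rw [h, MvPolynomial.eval₂Hom_C]

theorem PD.ev_lf (e : Fin (m + 1)) : D.ev (lf c a e) = ti (FF K k) * PS (FF K k) (D.se e) := by
  show MvPolynomial.eval₂Hom (CK K k) D.y (fwd c a T (lf c a e)) = _
  rw [fwd_lf, map_add, map_sum, MvPolynomial.eval₂Hom_C, ← D.fac]
  simp only [map_mul, MvPolynomial.eval₂Hom_C, MvPolynomial.eval₂Hom_X']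

/-- the place -/
noncomputable def PD.pl : GRing lam c a →+* HahnSeries ℤ (FF K k) :=
  Ideal.Quotient.lift (Ideal.span {geqn lam c a}) D.ev (by
    intro p hp
    have hle : Ideal.span {geqn lam c a} ≤ RingHom.ker D.ev := by
      rw [Ideal.span_le]
      rintro q rfl
      show D.ev (geqn lam c a) = 0
      unfold geqn
      rw [map_sub, map_mul, map_prod, map_one, sub_eq_zero, D.ev_C, ← D.tot]
      simp only [D.ev_lf, D.fac]
    exact hle hp)

theorem PD.pl_gpol (p : MvPolynomial (Fin (k + 1 + 1)) K) : D.pl (gpol lam c a p) = D.ev p :=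
  Ideal.Quotient.lift_mk _ _ _

theorem PD.pl_gcst (x : K) : D.pl (gcst lam c a x) = CK K k x := by
  show D.pl (gpol lam c a (MvPolynomial.C x)) = _
  rw [D.pl_gpol, D.ev_C]

theorem PD.pl_gu (e : Fin (m + 1)) : D.pl (gu lam c a e : GRing lam c a) =
    ti (FF K k) * PS (FF K k) (D.se e) := by
  rw [coe_gu, D.pl_gpol, D.ev_lf]

end Pool.Agent.X232.CG
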