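import Pool.Agent.X232.CG.Pl
import Pool.Agent.X232.CG.Sp
set_option autoImplicit false

/-!
The functionals given by the places at infinity on the symbols with a constant entry.
-/

namespace Pool.Agent.X232.CG

open Pool.Agent.TH826.MK

open Pool.Agent.X232.CF (cu coe_cu)

open Pool.Agent.X232.CU (s1 s1_mul s1_one ti ti_ne_zero order_ti od_coe span_symb)

open Pool.Agent.X232.CF.E (PS PS_C ti_X PS_ne)

open Pool.Agent.TH826.GA (GRing gpol gcst gu coe_gu lf geqn gpol_geqn prod_gl cm al be fwd fwd_lf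
  al_T be_T al_ne)

section det

variable {n : ℕ}

theorem det_dep {v : Fin n → Fin n → ℚ} {i j : Fin n} (hij : i ≠ j) {p q : ℚ}
    (hpq : p ≠ 0 ∨ q ≠ 0) (h : p • v i + q • v j = 0) : (Matrix.of v).det = 0 := by
  refine (Matrix.detRowAlternating (R := ℚ) (n := Fin n)).map_linearDependent v ?_
  intro hli
  have hinj : Function.Injective (![i, j] : Fin 2 → Fin n) := by
    intro x y hxy
    fin_cases x <;> fin_cases y
    · rfl
    · exact absurd hxy hij
    · exact absurd hxy hij.symm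
    · rfl
  have h2 := hli.comp ![i, j] hinj
  have h3 : LinearIndependent ℚ ![v i, v j] := by
    have e : (v ∘ ![i, j]) = ![v i, v j] := by
      funext x
      fin_cases x <;> rfl
    rw [← e]
    exact h2
  have h4 := LinearIndependent.pair_iff.1 h3 p q h
  rcases hpq with hp | hq
  · exact hp h4.1
  · exact hq h4.2

theorem det_par {v : Fin n → Fin n → ℚ} {i j : Fin n} (hij : i ≠ j) {x y : ℚ} {E : Fin n → ℚ}
    (hi : v i = x • E) (hj : v j = y • E) : (Matrix.of v).det = 0 := by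
  by_cases hx : x = 0
  · refine det_dep hij (p := 1) (q := 0) (Or.inl one_ne_zero) ?_
    rw [hi, hx]
    simp
  · refine det_dep hij (p := y) (q := -x) (Or.inr (neg_ne_zero.2 hx)) ?_
    rw [hi, hj, smul_smul, smul_smul, ← add_smul]
    have : y * x + -x * y = 0 := by ring
    rw [this, zero_smul]

theorem det_tri {k : ℕ} {M : Matrix (Fin (k + 1 + 1)) (Fin (k + 1 + 1)) ℚ}
    (h0 : ∀ j : Fin (k + 1), M 0 j.succ = 0)
    (h1 : ∀ i : Fin k, M i.succ.succ (Fin.succ 0) = 0)
    (h2 : ∀ i j : Fin k, M i.succ.succ j.succ.succ = if i = j then 1 else 0) :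
    M.det = M 0 0 * M (Fin.succ 0) (Fin.succ 0) := by
  rw [Matrix.det_succ_row_zero, Finset.sum_eq_single 0]
  · have h3 : (M.submatrix Fin.succ (0 : Fin (k + 1 + 1)).succAbove).det =
        M (Fin.succ 0) (Fin.succ 0) := by
      rw [Matrix.det_succ_column_zero, Finset.sum_eq_single 0]
      · have h4 : ((M.submatrix Fin.succ (0 : Fin (k + 1 + 1)).succAbove).submatrix
            (0 : Fin (k + 1)).succAbove Fin.succ) = 1 := by
          ext i j
          rw [Matrix.submatrix_apply, Matrix.submatrix_apply, Matrix.one_apply,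
            Fin.succAbove_zero, Fin.succAbove_zero]
          exact h2 i j
        rw [h4, Matrix.det_one, Matrix.submatrix_apply, Fin.succAbove_zero]
        simp
      · intro i _ hi
        obtain ⟨i, rfl⟩ := Fin.exists_succ_eq.2 hi
        rw [Matrix.submatrix_apply, Fin.succAbove_zero, h1]
        simp
      · intro h
        exact absurd (Finset.mem_univ _) h
    rw [h3]
    simp
  · intro j _ hj
    obtain ⟨j, rfl⟩ := Fin.exists_succ_eq.2 hj
    rw [h0]
    simp
  · intro h
    exact absurd (Finset.mem_univ _) h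

end det

variable {K : Type*} [Field K] {k m : ℕ} {c : Fin (m + 1) → Fin (k + 1 + 1) → K}
  {a : Fin (m + 1) → K} {T : Fin (k + 1 + 1) → Fin (m + 1)} {lam : K} (D : PD lam c a T)
  (φ : KQ K 1 →ₗ[ℚ] ℚ)

/-- the coordinates of a unit at the place -/
noncomputable def PD.rho (u : (GRing lam c a)ˣ) : Fin (k + 1 + 1) → ℚ :=
  RR φ (Units.map (D.pl : GRing lam c a →* HahnSeries ℤ (FF K k)) u)

theorem PD.rho_mul (u v : (GRing lam c a)ˣ) : D.rho φ (u * v) = D.rho φ u + D.rho φ v := by
  unfold PD.rho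
  rw [map_mul]
  exact (good_RR φ).mul _ _

theorem PD.rho_one : D.rho φ 1 = 0 := by
  have h := D.rho_mul φ 1 1
  rw [mul_one] at h
  simpa using h

theorem PD.rho_div (u v : (GRing lam c a)ˣ) : D.rho φ (u / v) = D.rho φ u - D.rho φ v := by
  have h := D.rho_mul φ (u / v) v
  rw [div_mul_cancel] at h
  rw [h, add_sub_cancel_right]

theorem PD.rho_prod {ι : Type*} (s : Finset ι) (f : ι → (GRing lam c a)ˣ) :
    D.rho φ (∏ i ∈ s, f i) = ∑ i ∈ s, D.rho φ (f i) := by
  classical
  induction s using Finset.induction_on with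
  | empty => rw [Finset.prod_empty, Finset.sum_empty, D.rho_one]
  | insert i s hi ih => rw [Finset.prod_insert hi, Finset.sum_insert hi, D.rho_mul, ih]

theorem PD.rho_const (x : Kˣ) : D.rho φ (cu (gcst lam c a) x) =
    φ (s1 K x) • (Fin.cons 1 0 : Fin (k + 1 + 1) → ℚ) := by
  unfold PD.rho
  have e : ((Units.map (D.pl : GRing lam c a →* HahnSeries ℤ (FF K k)) (cu (gcst lam c a) x) :
      (HahnSeries ℤ (FF K k))ˣ) : HahnSeries ℤ (FF K k)) = HahnSeries.C (HahnSeries.C (x : K)) := by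
    show D.pl (gcst lam c a (x : K)) = _
    rw [D.pl_gcst, CK_apply]
  have h1 : (HahnSeries.C (HahnSeries.C (x : K)) : HahnSeries ℤ (FF K k)).leadingCoeff =
      HahnSeries.C (x : K) := by
    rw [HahnSeries.C_apply, HahnSeries.leadingCoeff_of_single]
  rw [RR_of φ _ (o := 0) (x := 0) (c := x) (by rw [e, HahnSeries.order_C])
    (by rw [e, h1, HahnSeries.order_C])
    (by rw [e, h1, HahnSeries.C_apply, HahnSeries.leadingCoeff_of_single])]
  funext i
  refine Fin.cases ?_ (fun i => ?_) i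
  · simp
  · refine Fin.cases ?_ (fun i => ?_) i
    · simp
    · simp

theorem PD.rho_of {e : Fin (m + 1)} (h0 : bc c T e ≠ 0) {x : GG' k} {r : Kˣ}
    (h1 : (bc c T e).order = x) (h2 : (bc c T e).leadingCoeff = r) :
    D.rho φ (gu lam c a e) = Fin.cons (φ (s1 K r)) (Fin.cons (-1) (nuL k x) :
      Fin (k + 1) → ℚ) := by
  unfold PD.rho
  have e1 : ((Units.map (D.pl : GRing lam c a →* HahnSeries ℤ (FF K k)) (gu lam c a e) :
      (HahnSeries ℤ (FF K k))ˣ) : HahnSeries ℤ (FF K k)) =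
      ti (FF K k) * PS (FF K k) (D.se e) := D.pl_gu e
  have h3 : PowerSeries.constantCoeff (D.se e) ≠ 0 := by
    rw [D.cc_se]
    exact h0
  obtain ⟨h4, h5⟩ := lc_tiPS h3
  rw [D.cc_se] at h5
  rw [RR_of φ _ (o := -1) (x := x) (c := r) (by rw [e1, h4]) (by rw [e1, h5, h1])
    (by rw [e1, h5, h2])]
  simp

section facts

variable (hdet : ∀ T : Fin (k + 1 + 1) → Fin (m + 1), Function.Injective T → (cm c T).det ≠ 0)
  (hT : Function.Injective T)

include hdet hT

theorem PD.rho_T0 : D.rho φ (gu lam c a (T 0)) =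
    Fin.cons 0 (Fin.cons (-1) 0 : Fin (k + 1) → ℚ) := by
  rw [D.rho_of φ (x := 0) (r := 1) (by rw [bc_zero hdet hT]; exact one_ne_zero)
    (by rw [bc_zero hdet hT, HahnSeries.order_one])
    (by rw [bc_zero hdet hT, HahnSeries.leadingCoeff_one]; rfl), s1_one, map_zero, map_zero]

theorem PD.rho_Tss (j : Fin k) : D.rho φ (gu lam c a (T j.succ.succ)) =
    Fin.cons 0 (Fin.cons (-1) (Pi.single j 1) : Fin (k + 1) → ℚ) := by
  have h1 : (tj K j).order = toLex (Pi.single j (1 : ℤ)) := by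
    unfold tj
    exact HahnSeries.order_single one_ne_zero
  have h2 : (tj K j).leadingCoeff = ((1 : Kˣ) : K) := by
    unfold tj
    rw [HahnSeries.leadingCoeff_of_single]
    rfl
  rw [D.rho_of φ (x := toLex (Pi.single j (1 : ℤ))) (r := 1)
    (by rw [bc_ss hdet hT]; exact tj_ne j) (by rw [bc_ss hdet hT, h1])
    (by rw [bc_ss hdet hT, h2]), s1_one, map_zero]
  congr 2
  funext i
  show (((Pi.single j (1 : ℤ) : Fin k → ℤ) i : ℤ) : ℚ) = _
  by_cases h : i = j
  · subst h
    simp
  · rw [Pi.single_eq_of_ne h, Pi.single_eq_of_ne h, Int.cast_zero]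

theorem PD.rho_other {e : Fin (m + 1)} (he : ∀ i, T i ≠ e) : ∃ x : ℚ,
    D.rho φ (gu lam c a e) = Fin.cons x (Fin.cons (-1) 0 : Fin (k + 1) → ℚ) := by
  obtain ⟨h1, h2, h3⟩ := bc_other hdet hT he
  have h4 := al_ne T hdet hT he 0
  refine ⟨φ (s1 K (Units.mk0 _ h4)), ?_⟩
  rw [D.rho_of φ (x := 0) (r := Units.mk0 _ h4) h1 h2 (by rw [h3, Units.val_mk0]), map_zero]

theorem PD.rho_ne {e : Fin (m + 1)} (he : e ≠ T (Fin.succ 0)) :
    D.rho φ (gu lam c a e) (Fin.succ 0) = -1 := by
  by_cases h : ∃ i, T i = e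
  · obtain ⟨i, rfl⟩ := h
    revert he
    refine Fin.cases ?_ (fun i => ?_) i
    · intro _
      rw [D.rho_T0 φ hdet hT]
      rfl
    · refine Fin.cases ?_ (fun i => ?_) i
      · intro he
        exact absurd rfl he
      · intro _
        rw [D.rho_Tss φ hdet hT]
        rfl
  · push Not at h
    obtain ⟨x, hx⟩ := D.rho_other φ hdet hT h
    rw [hx]
    rfl

theorem PD.rho_T1 (hlam : lam ≠ 0) :
    D.rho φ (gu lam c a (T (Fin.succ 0))) (Fin.succ 0) = m := by
  classical
  have h1 : cu (gcst lam c a) (Units.mk0 lam hlam) * ∏ e, gu lam c a e = 1 := by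
    ext
    rw [Units.val_mul, Units.coe_prod, coe_cu, Units.val_mk0, Units.val_one]
    exact prod_gl lam c a
  have h2 := congrArg (D.rho φ) h1
  rw [D.rho_mul, D.rho_prod, D.rho_one, D.rho_const,
    ← Finset.add_sum_erase _ _ (Finset.mem_univ (T (Fin.succ 0)))] at h2
  have h3 := congrFun h2 (Fin.succ 0)
  rw [Pi.add_apply, Pi.add_apply, Finset.sum_apply, Pi.smul_apply] at h3
  rw [Finset.sum_congr rfl fun e he => D.rho_ne φ hdet hT (Finset.ne_of_mem_erase he),
    Finset.sum_const, Finset.card_erase_of_mem (Finset.mem_univ _), Finset.card_univ,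
    Fintype.card_fin] at h3
  have h4 : (Fin.cons 1 0 : Fin (k + 1 + 1) → ℚ) (Fin.succ 0) = 0 := rfl
  rw [h4] at h3
  simp only [smul_zero, zero_add, Pi.zero_apply, Nat.add_sub_cancel, smul_eq_mul, nsmul_eq_mul]
    at h3
  linarith

end facts

end Pool.Agent.X232.CG
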